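import Mathlib

/-!
# Project ZC: zero-cycles of degree one on the quartics

`E : y² = x (x - A) (x - B)`. The class of a point `(x, y)` is the pair of the classes of `x` and
`x - A` in `K* / K*²` (with the usual values at the points of order two). The pair `(α, β)` is a
class if and only if the curve `α M² - A e² = β x²`, `α M² - B e² = α β y²` has a point.
-/

set_option autoImplicit false

namespace Pool.Agent.TH841.ZC

open Polynomial

/-- the pair `(α, β)` is the class of a point of `y² = x (x - A) (x - B)` over `K` -/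
def Cls (K : Type) [Field K] (A B α β : K) : Prop := ∃ M e x y : K, (M ≠ 0 ∨ e ≠ 0) ∧
  α * M ^ 2 - A * e ^ 2 = β * x ^ 2 ∧ α * M ^ 2 - B * e ^ 2 = α * β * y ^ 2

/-- ZC-MUL: the classes form a group. -/
def MUL : Prop := ∀ (K : Type) [Field K] [CharZero K] (A B α β α' β' : K), A ≠ 0 → B ≠ 0 →
  A ≠ B → α ≠ 0 → β ≠ 0 → α' ≠ 0 → β' ≠ 0 → Cls K A B α β → Cls K A B α' β' →
  Cls K A B (α * α') (β * β')

/-- ZC-MUM: the class of a divisor in Mumford representation is the class of a point. -/
def MUM : Prop := ∀ (K : Type) [Field K] [CharZero K] (A B : K) (u v : K[X]), A ≠ 0 → B ≠ 0 →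
  A ≠ B → u.Monic → u ∣ X * (X - C A) * (X - C B) - v ^ 2 → u.eval 0 ≠ 0 → u.eval A ≠ 0 →
  u.eval B ≠ 0 → Cls K A B ((-1) ^ u.natDegree * u.eval 0) ((-1) ^ u.natDegree * u.eval A)

/-- ZC-NRM: the norm of the class of a point over a finite extension is the class of a point. -/
def NRM : Prop := ∀ (K L : Type) [Field K] [Field L] [Algebra K L] [FiniteDimensional K L]
  [CharZero K] (A B : K) (θ y : L), A ≠ 0 → B ≠ 0 → A ≠ B → y ≠ 0 →
  y ^ 2 = θ * (θ - algebraMap K L A) * (θ - algebraMap K L B) →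
  Cls K A B (Algebra.norm K θ) (Algebra.norm K (θ - algebraMap K L A))

/-- ZC-PNT: the same for the points of the quartic. -/
def PNT : Prop := ∀ (K L : Type) [Field K] [Field L] [Algebra K L] [FiniteDimensional K L]
  [CharZero K] (A B b : K) (M e N : L), A ≠ 0 → B ≠ 0 → A ≠ B → b ≠ 0 → (M ≠ 0 ∨ e ≠ 0) →
  algebraMap K L b * N ^ 2 = (algebraMap K L b * M ^ 2 - algebraMap K L A * e ^ 2) *
    (algebraMap K L b * M ^ 2 - algebraMap K L B * e ^ 2) →
  (algebraMap K L b * M ^ 2 - algebraMap K L A * e ^ 2 ≠ 0 →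
    Cls K A B (b ^ Module.finrank K L)
      (Algebra.norm K (algebraMap K L b * M ^ 2 - algebraMap K L A * e ^ 2))) ∧
  (algebraMap K L b * M ^ 2 - algebraMap K L A * e ^ 2 = 0 →
    Cls K A B (b ^ Module.finrank K L)
      (Algebra.norm K (algebraMap K L b * (algebraMap K L b * M ^ 2 - algebraMap K L B * e ^ 2))))

end Pool.Agent.TH841.ZC
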