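import Mathlib
import Pool.Agent.TH841.ZC.Stm

/-!
# ZC-PNT: the points of the quartic over finite extensions
-/

set_option autoImplicit false

namespace Pool.Agent.TH841.ZC

open Polynomial

section

variable {K : Type} [Field K] {A B α β : K}

/-- the classes modulo squares -/
lemma Cls.congr (h : Cls K A B α β) {s t : K} (hs : s ≠ 0) (ht : t ≠ 0) :
    Cls K A B (α * s ^ 2) (β * t ^ 2) := by
  obtain ⟨M, e, x, y, hMe, h1, h2⟩ := h
  refine ⟨M / s, e, x / t, y / (s * t), ?_, ?_, ?_⟩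
  · rcases hMe with h | h
    · exact Or.inl (div_ne_zero h hs)
    · exact Or.inr h
  · have e1 : α * s ^ 2 * (M / s) ^ 2 = α * M ^ 2 := by field_simp
    have e2 : β * t ^ 2 * (x / t) ^ 2 = β * x ^ 2 := by field_simp
    rw [e1, e2, h1]
  · have e1 : α * s ^ 2 * (M / s) ^ 2 = α * M ^ 2 := by field_simp
    have e2 : α * s ^ 2 * (β * t ^ 2) * (y / (s * t)) ^ 2 = α * β * y ^ 2 := by field_simp
    rw [e1, e2, h2]

lemma Cls.congr' (h : Cls K A B α β) {α' β' : K} (hα : ∃ s, s ≠ 0 ∧ α' = α * s ^ 2)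
    (hβ : ∃ t, t ≠ 0 ∧ β' = β * t ^ 2) : Cls K A B α' β' := by
  obtain ⟨s, hs, rfl⟩ := hα
  obtain ⟨t, ht, rfl⟩ := hβ
  exact h.congr hs ht

lemma cls_one (A B : K) {s t : K} (hs : s ≠ 0) (ht : t ≠ 0) : Cls K A B (s ^ 2) (t ^ 2) := by
  refine ⟨1, 0, s / t, 1 / t, Or.inl one_ne_zero, ?_, ?_⟩
  · field_simp
    ring
  · field_simp
    ring

lemma cls_T0 (hA : A ≠ 0) : Cls K A B (A * B) (-A) := by
  refine ⟨0, 1, 1, 1 / A, Or.inr one_ne_zero, ?_, ?_⟩
  · ring
  · field_simp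
    ring

lemma cls_TA (hA : A ≠ 0) : Cls K A B A (A * (A - B)) := by
  refine ⟨1, 1, 0, 1 / A, Or.inl one_ne_zero, ?_, ?_⟩
  · ring
  · field_simp

lemma cls_TB (A B : K) : Cls K A B B (B - A) := by
  refine ⟨1, 1, 1, 0, Or.inl one_ne_zero, ?_, ?_⟩
  · ring
  · ring

end

section

variable {K L : Type} [Field K] [Field L] [Algebra K L] [FiniteDimensional K L]

lemma norm_sq {c : K} {ρ : L} (h : algebraMap K L c = ρ ^ 2) :
    c ^ Module.finrank K L = (Algebra.norm K ρ) ^ 2 := by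
  rw [← Algebra.norm_algebraMap, h, map_pow]

lemma sq_of_odd {c : K} (hc : c ≠ 0) {ρ : L} (h : algebraMap K L c = ρ ^ 2)
    (hn : Odd (Module.finrank K L)) : ∃ w : K, w ≠ 0 ∧ c = w ^ 2 := by
  obtain ⟨k, hk⟩ := hn
  have h1 := norm_sq h
  rw [hk] at h1
  have hck : c ^ k ≠ 0 := pow_ne_zero _ hc
  have h2 : c = (Algebra.norm K ρ / c ^ k) ^ 2 := by
    rw [div_pow, eq_div_iff (pow_ne_zero 2 hck), ← h1]
    ring
  refine ⟨_, ?_, h2⟩
  intro h0
  rw [h0] at h2
  exact hc (by rw [h2]; ring)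

lemma pow_sq_or (n : ℕ) {c : K} (hc : c ≠ 0) :
    (Even n → ∃ s, s ≠ 0 ∧ c ^ n = s ^ 2) ∧ (Odd n → ∃ s, s ≠ 0 ∧ c ^ n = c * s ^ 2) := by
  constructor
  · rintro ⟨k, rfl⟩
    exact ⟨c ^ k, pow_ne_zero _ hc, by ring⟩
  · rintro ⟨k, rfl⟩
    exact ⟨c ^ k, pow_ne_zero _ hc, by ring⟩

lemma norm_ne {x : L} (hx : x ≠ 0) : Algebra.norm K x ≠ 0 := Algebra.norm_ne_zero_iff.2 hx

/-- the points of order two -/
lemma two_tors {A B b α β γ : K} (hb : b ≠ 0) (hβ : β ≠ 0) (hγ : γ ≠ 0)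
    (h0 : Cls K A B α β) (hb' : Odd (Module.finrank K L) → ∃ s, s ≠ 0 ∧ b = α * s ^ 2)
    (hγ' : Odd (Module.finrank K L) → ∃ s, s ≠ 0 ∧ γ = β * s ^ 2) {e : L} (he : e ≠ 0) :
    Cls K A B (b ^ Module.finrank K L) (Algebra.norm K (algebraMap K L γ * e ^ 2)) := by
  have hN : Algebra.norm K (algebraMap K L γ * e ^ 2) =
      γ ^ Module.finrank K L * (Algebra.norm K e) ^ 2 := by
    rw [map_mul, map_pow, Algebra.norm_algebraMap]
  have he' : Algebra.norm K e ≠ 0 := norm_ne he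
  rw [hN]
  rcases Nat.even_or_odd (Module.finrank K L) with h | h
  · obtain ⟨s, hs, hs'⟩ := (pow_sq_or (Module.finrank K L) hb).1 h
    obtain ⟨t, ht, ht'⟩ := (pow_sq_or (Module.finrank K L) hγ).1 h
    rw [hs', ht', ← mul_pow]
    exact cls_one A B hs (mul_ne_zero ht he')
  · obtain ⟨s, hs, hs'⟩ := (pow_sq_or (Module.finrank K L) hb).2 h
    obtain ⟨t, ht, ht'⟩ := (pow_sq_or (Module.finrank K L) hγ).2 h
    obtain ⟨s1, hs1, hs1'⟩ := hb' h
    obtain ⟨t1, ht1, ht1'⟩ := hγ' h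
    refine h0.congr' ⟨s1 * s, mul_ne_zero hs1 hs, ?_⟩
      ⟨t1 * t * Algebra.norm K e, mul_ne_zero (mul_ne_zero ht1 ht) he', ?_⟩
    · rw [hs']
      conv_lhs => rw [hs1']
      ring
    · rw [ht']
      conv_lhs => rw [ht1']
      ring

end

theorem pnt (hnrm : NRM) : PNT := by
  intro K L _ _ _ _ _ A B b M e N hA hB hAB hb hMe hk
  set φ := algebraMap K L with hφ
  have hinj : Function.Injective φ := (algebraMap K L).injective
  have hbL : φ b ≠ 0 := (map_ne_zero φ).2 hb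
  have hAL : φ A ≠ 0 := (map_ne_zero φ).2 hA
  have hBL : φ B ≠ 0 := (map_ne_zero φ).2 hB
  have hABL : φ A - φ B ≠ 0 := sub_ne_zero.2 (fun h => hAB (hinj h))
  have hAB' : A - B ≠ 0 := sub_ne_zero.2 hAB
  have hBA' : B - A ≠ 0 := sub_ne_zero.2 (Ne.symm hAB)
  by_cases he : e = 0
  · have hM : M ≠ 0 := hMe.resolve_right (not_not.2 he)
    rw [he] at hk ⊢
    have h1 : N ^ 2 = φ b * M ^ 4 := by
      apply mul_left_cancel₀ hbL
      linear_combination hk
    have hbs : φ b = (N / M ^ 2) ^ 2 := by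
      field_simp
      linear_combination -h1
    have hN : N ≠ 0 := by
      rintro rfl
      apply hbL
      rw [hbs]
      ring
    refine ⟨fun _ => ?_, fun h => ?_⟩
    · have h2 : φ b * M ^ 2 - φ A * 0 ^ 2 = (N / M) ^ 2 := by
        rw [hbs]
        field_simp
        ring
      rw [h2, map_pow, norm_sq hbs]
      exact cls_one A B (norm_ne (div_ne_zero hN (pow_ne_zero 2 hM)))
        (norm_ne (div_ne_zero hN hM))
    · exfalso
      have h2 : φ b * M ^ 2 = 0 := by linear_combination h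
      exact mul_ne_zero hbL (pow_ne_zero 2 hM) h2
  by_cases hM : M = 0
  · rw [hM] at hk ⊢
    have hsq : φ (A * B * b) = (φ b * N / e ^ 2) ^ 2 := by
      rw [map_mul, map_mul]
      field_simp
      linear_combination -hk
    refine ⟨fun _ => ?_, fun h => ?_⟩
    · have h2 : φ b * 0 ^ 2 - φ A * e ^ 2 = φ (-A) * e ^ 2 := by
        rw [map_neg]
        ring
      rw [h2]
      refine two_tors (L := L) hb (neg_ne_zero.2 hA) (neg_ne_zero.2 hA) (cls_T0 (B := B) hA)
        (fun hn => ?_) (fun _ => ⟨1, one_ne_zero, by ring⟩) he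
      obtain ⟨w, hw, hw'⟩ := sq_of_odd (mul_ne_zero (mul_ne_zero hA hB) hb) hsq hn
      refine ⟨w / (A * B), div_ne_zero hw (mul_ne_zero hA hB), ?_⟩
      field_simp
      linear_combination hw'
    · exfalso
      have h2 : φ A * e ^ 2 = 0 := by linear_combination -h
      exact mul_ne_zero hAL (pow_ne_zero 2 he) h2
  by_cases hg : φ b * M ^ 2 - φ A * e ^ 2 = 0
  · refine ⟨fun h => absurd hg h, fun _ => ?_⟩
    have hsq : φ (A * b) = (φ b * M / e) ^ 2 := by
      rw [map_mul]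
      field_simp
      linear_combination -hg
    have h2 : φ b * (φ b * M ^ 2 - φ B * e ^ 2) = φ (b * (A - B)) * e ^ 2 := by
      rw [map_mul, map_sub]
      linear_combination φ b * hg
    rw [h2]
    have key : Odd (Module.finrank K L) → ∃ s, s ≠ 0 ∧ b = A * s ^ 2 := by
      intro hn
      obtain ⟨w, hw, hw'⟩ := sq_of_odd (mul_ne_zero hA hb) hsq hn
      refine ⟨w / A, div_ne_zero hw hA, ?_⟩
      field_simp
      linear_combination hw'
    refine two_tors (L := L) hb (mul_ne_zero hA hAB') (mul_ne_zero hb hAB') (cls_TA (B := B) hA)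
      key (fun hn => ?_) he
    obtain ⟨s, hs, hs'⟩ := key hn
    exact ⟨s, hs, by linear_combination (A - B) * hs'⟩
  by_cases hg' : φ b * M ^ 2 - φ B * e ^ 2 = 0
  · refine ⟨fun _ => ?_, fun h => absurd h hg⟩
    have hsq : φ (B * b) = (φ b * M / e) ^ 2 := by
      rw [map_mul]
      field_simp
      linear_combination -hg'
    have h2 : φ b * M ^ 2 - φ A * e ^ 2 = φ (B - A) * e ^ 2 := by
      rw [map_sub]
      linear_combination hg'
    rw [h2]
    refine two_tors (L := L) hb hBA' hBA' (cls_TB A B) (fun hn => ?_)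
      (fun _ => ⟨1, one_ne_zero, by ring⟩) he
    obtain ⟨w, hw, hw'⟩ := sq_of_odd (mul_ne_zero hB hb) hsq hn
    refine ⟨w / B, div_ne_zero hw hB, ?_⟩
    field_simp
    linear_combination hw'
  · refine ⟨fun _ => ?_, fun h => absurd h hg⟩
    have hN : N ≠ 0 := by
      rintro rfl
      have : (φ b * M ^ 2 - φ A * e ^ 2) * (φ b * M ^ 2 - φ B * e ^ 2) = 0 := by
        linear_combination -hk
      exact mul_ne_zero hg hg' this
    have h1 := hnrm K L A B (φ b * (M / e) ^ 2) (φ b * M * N / e ^ 3) hA hB hAB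
      (div_ne_zero (mul_ne_zero (mul_ne_zero hbL hM) hN) (pow_ne_zero 3 he)) (by
        have e1 : φ b * (M / e) ^ 2 - φ A = (φ b * M ^ 2 - φ A * e ^ 2) / e ^ 2 := by field_simp
        have e2 : φ b * (M / e) ^ 2 - φ B = (φ b * M ^ 2 - φ B * e ^ 2) / e ^ 2 := by field_simp
        rw [← hφ, e1, e2]
        have e3 : φ b * (M / e) ^ 2 * ((φ b * M ^ 2 - φ A * e ^ 2) / e ^ 2) *
            ((φ b * M ^ 2 - φ B * e ^ 2) / e ^ 2) = φ b * (M / e) ^ 2 *
            ((φ b * M ^ 2 - φ A * e ^ 2) * (φ b * M ^ 2 - φ B * e ^ 2)) / e ^ 4 := by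
          field_simp
        rw [e3, ← hk]
        field_simp)
    refine h1.congr' ?_ ?_
    · refine ⟨Algebra.norm K (e / M), norm_ne (div_ne_zero he hM), ?_⟩
      rw [← map_pow, ← map_mul]
      have e1 : φ b * (M / e) ^ 2 * (e / M) ^ 2 = φ b := by field_simp
      rw [e1, hφ, Algebra.norm_algebraMap]
    · refine ⟨Algebra.norm K e, norm_ne he, ?_⟩
      rw [← map_pow, ← map_mul]
      congr 1
      rw [← hφ]
      field_simp

end Pool.Agent.TH841.ZC
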