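import Mathlib
import Pool.Agent.TH841.FD.Main3
import Pool.Agent.TH841.FD.BM2
import Pool.Agent.TH841.ZC.Pnt

/-!
# Project ZC: zero-cycles of degree one on the quartics and the double coverings
-/

set_option autoImplicit false

namespace Pool.Agent.TH841.ZC

open Finset

open Pool.Agent.TH841.NO (SQ Qu)

open Pool.Agent.TH841.FD (Pnt val Cov LF val_ne sqf_part cov_map good)

open Pool.Agent.W313.BMX (Splits Fam ram IsTest hexact hrec diag factPrime)

/-- a zero-cycle on the quartic, given by points over finite extensions -/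
structure Cyc (A B b₁ : ℤ) (K : Type) [Field K] where
  /-- the index set -/
  ι : Type
  [fin : Fintype ι]
  /-- the fields -/
  L : ι → Type
  [fld : ∀ i, Field (L i)]
  [alg : ∀ i, Algebra K (L i)]
  [fd : ∀ i, FiniteDimensional K (L i)]
  /-- the points -/
  P : ∀ i, Pnt A B b₁ (L i)
  /-- the multiplicities -/
  n : ι → ℤ

attribute [instance] Cyc.fin Cyc.fld Cyc.alg Cyc.fd

variable {A B b₁ : ℤ}

/-- the degree -/
noncomputable def Cyc.deg {K : Type} [Field K] (z : Cyc A B b₁ K) : ℤ :=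
  ∑ i, z.n i * (Module.finrank K (z.L i) : ℤ)

/-- the value of the function `b₁ M² - A e²`, modulo squares -/
noncomputable def Cyc.value {K : Type} [Field K] (z : Cyc A B b₁ K) : K :=
  ∏ i, (Algebra.norm K (val (z.P i))) ^ z.n i

/-! ### Classes -/

lemma Cls.zpow {K : Type} [Field K] {A B α β : K} (h : Cls K A B α β) (hα : α ≠ 0) (hβ : β ≠ 0)
    (n : ℤ) : Cls K A B (α ^ n) (β ^ n) := by
  rcases Int.even_or_odd n with ⟨k, rfl⟩ | ⟨k, rfl⟩
  · have e1 : ∀ x : K, x ≠ 0 → x ^ (k + k) = (x ^ k) ^ 2 := by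
      intro x hx
      rw [zpow_add₀ hx]
      ring
    rw [e1 α hα, e1 β hβ]
    exact cls_one A B (zpow_ne_zero _ hα) (zpow_ne_zero _ hβ)
  · have e1 : ∀ x : K, x ≠ 0 → x ^ (2 * k + 1) = x * (x ^ k) ^ 2 := by
      intro x hx
      rw [zpow_add₀ hx, zpow_one, two_mul, zpow_add₀ hx]
      ring
    rw [e1 α hα, e1 β hβ]
    exact h.congr (zpow_ne_zero _ hα) (zpow_ne_zero _ hβ)

lemma cls_prod (hmul : MUL) {K : Type} [Field K] [CharZero K] {A B : K} (hA : A ≠ 0)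
    (hB : B ≠ 0) (hAB : A ≠ B) {ι : Type} (s : Finset ι) (α β : ι → K) (hα : ∀ i, α i ≠ 0)
    (hβ : ∀ i, β i ≠ 0) (h : ∀ i, Cls K A B (α i) (β i)) :
    Cls K A B (∏ i ∈ s, α i) (∏ i ∈ s, β i) := by
  classical
  induction s using Finset.induction_on with
  | empty =>
    have := cls_one A B (one_ne_zero (α := K)) (one_ne_zero (α := K))
    simpa using this
  | insert a s ha ih =>
    rw [prod_insert ha, prod_insert ha]
    exact hmul K A B _ _ _ _ hA hB hAB (hα a) (hβ a) (prod_ne_zero_iff.2 fun i _ => hα i)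
      (prod_ne_zero_iff.2 fun i _ => hβ i) (h a) ih

lemma prod_zpow' {K : Type} [Field K] {b : K} (hb : b ≠ 0) {ι : Type} (s : Finset ι) (m : ι → ℤ) :
    ∏ i ∈ s, b ^ m i = b ^ ∑ i ∈ s, m i := by
  classical
  induction s using Finset.induction_on with
  | empty => simp
  | insert a s ha ih => rw [prod_insert ha, sum_insert ha, ih, zpow_add₀ hb]

lemma value_ne {K : Type} [Field K] [CharZero K] (hb : b₁ ≠ 0) (hAB : A ≠ B)
    (z : Cyc A B b₁ K) : z.value ≠ 0 := by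
  unfold Cyc.value
  refine prod_ne_zero_iff.2 fun i _ => zpow_ne_zero _ ?_
  have : CharZero (z.L i) := charZero_of_injective_algebraMap (algebraMap K (z.L i)).injective
  exact Algebra.norm_ne_zero_iff.2 (val_ne hb hAB (z.P i))

theorem cls_of_cyc (hmul : MUL) (hpnt : PNT) {K : Type} [Field K] [CharZero K] (hA : A ≠ 0)
    (hB : B ≠ 0) (hAB : A ≠ B) (hb : b₁ ≠ 0) (hd : b₁ ∣ A * B) (z : Cyc A B b₁ K)
    (hz : z.deg = 1) : Cls K (A : K) (B : K) (b₁ : K) z.value := by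
  have hAK : (A : K) ≠ 0 := by exact_mod_cast hA
  have hBK : (B : K) ≠ 0 := by exact_mod_cast hB
  have hbK : (b₁ : K) ≠ 0 := by exact_mod_cast hb
  have hABK : (A : K) ≠ B := by exact_mod_cast hAB
  have hcz : ∀ i, CharZero (z.L i) := fun i =>
    charZero_of_injective_algebraMap (algebraMap K (z.L i)).injective
  have h1 : ∀ i, Cls K (A : K) (B : K) ((b₁ : K) ^ Module.finrank K (z.L i))
      (Algebra.norm K (val (z.P i))) := by
    intro i
    have := hcz i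
    have hk := FD.key hb hd (z.P i)
    have h2 := hpnt K (z.L i) (A : K) (B : K) (b₁ : K) (z.P i).M (z.P i).e (z.P i).N hAK hBK hABK
      hbK (z.P i).ne (by rw [map_intCast, map_intCast, map_intCast]; exact hk)
    rw [map_intCast, map_intCast, map_intCast] at h2
    by_cases hu : (b₁ : z.L i) * (z.P i).M ^ 2 - (A : z.L i) * (z.P i).e ^ 2 = 0
    · have hv : val (z.P i) = (b₁ : z.L i) * ((b₁ : z.L i) * (z.P i).M ^ 2 -
          (B : z.L i) * (z.P i).e ^ 2) := if_neg (fun h => h hu)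
      rw [hv]
      exact h2.2 hu
    · have hv : val (z.P i) = (b₁ : z.L i) * (z.P i).M ^ 2 - (A : z.L i) * (z.P i).e ^ 2 :=
        if_pos hu
      rw [hv]
      exact h2.1 hu
  have hvn : ∀ i, Algebra.norm K (val (z.P i)) ≠ 0 := by
    intro i
    have := hcz i
    exact Algebra.norm_ne_zero_iff.2 (val_ne hb hAB (z.P i))
  have h3 := cls_prod hmul hAK hBK hABK univ
    (fun i => ((b₁ : K) ^ Module.finrank K (z.L i)) ^ z.n i)
    (fun i => (Algebra.norm K (val (z.P i))) ^ z.n i)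
    (fun i => zpow_ne_zero _ (pow_ne_zero _ hbK)) (fun i => zpow_ne_zero _ (hvn i))
    (fun i => (h1 i).zpow (pow_ne_zero _ hbK) (hvn i) _)
  have h4 : ∏ i, ((b₁ : K) ^ Module.finrank K (z.L i)) ^ z.n i = (b₁ : K) := by
    have h5 : ∏ i, ((b₁ : K) ^ Module.finrank K (z.L i)) ^ z.n i =
        ∏ i, (b₁ : K) ^ (z.n i * (Module.finrank K (z.L i) : ℤ)) := by
      refine prod_congr rfl fun i _ => ?_
      rw [← zpow_natCast, ← zpow_mul, mul_comm]
    rw [h5, prod_zpow' hbK]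
    have h6 : ∑ i, z.n i * (Module.finrank K (z.L i) : ℤ) = 1 := hz
    rw [h6, zpow_one]
  rw [h4] at h3
  exact h3

lemma cov_of_cls {K : Type} [Field K] [CharZero K] {γ : K} (hγ : γ ≠ 0)
    (h : Cls K (A : K) (B : K) (b₁ : K) γ) {n : ℤ} (hn : n ≠ 0) (hs : IsSquare (γ * n)) :
    Cov K A B b₁ n := by
  have hnK : (n : K) ≠ 0 := by exact_mod_cast hn
  obtain ⟨r, hr⟩ := hs
  have hr0 : r ≠ 0 := by
    rintro rfl
    rw [mul_zero] at hr
    exact mul_ne_zero hγ hnK hr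
  have h1 := h.congr' (α' := (b₁ : K)) (β' := (n : K)) ⟨1, one_ne_zero, by ring⟩
    ⟨r / γ, div_ne_zero hr0 hγ, by field_simp; linear_combination hr⟩
  exact h1

lemma pnt_of_cls {K : Type} [Field K] [CharZero K] (hb : b₁ ≠ 0) (hd : b₁ ∣ A * B) {γ : K}
    (h : Cls K (A : K) (B : K) (b₁ : K) γ) :
    ∃ P : Pnt A B b₁ K, IsSquare (val P * γ) := by
  have hbK : (b₁ : K) ≠ 0 := by exact_mod_cast hb
  obtain ⟨M, e, x, y, hMe, h1, h2⟩ := h
  have heq : (γ * x * y) ^ 2 = (b₁ : K) * M ^ 4 + ((-(A + B) : ℤ) : K) * M ^ 2 * e ^ 2 +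
      ((A * B / b₁ : ℤ) : K) * e ^ 4 := by
    obtain ⟨q, hq⟩ := hd
    rw [hq, Int.mul_ediv_cancel_left _ hb]
    have hqq : (A : K) * B = b₁ * q := by exact_mod_cast hq
    apply mul_left_cancel₀ hbK
    push_cast
    linear_combination (-(b₁ : K) * M ^ 2 + B * e ^ 2) * h1 - γ * x ^ 2 * h2 + e ^ 4 * hqq
  refine ⟨⟨M, e, γ * x * y, hMe, heq⟩, ?_⟩
  unfold FD.val
  split_ifs with hu
  · exact ⟨γ * x, by simp only; rw [h1]; ring⟩
  · exact ⟨b₁ * γ * y, by simp only; rw [h2]; ring⟩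

/-- **zero-cycles of degree one over the rationals** -/
theorem mem_of_cyc (hmul : MUL) (hpnt : PNT) (hA : A ≠ 0) (hB : B ≠ 0) (hAB : A ≠ B)
    (hs : b₁ ∈ SQ (-(A + B)) (A * B)) (z : Cyc A B b₁ ℚ) (hz : z.deg = 1) : b₁ ∈ LF A B := by
  have h1 := cls_of_cyc hmul hpnt hA hB hAB hs.1.ne_zero hs.2.1 z hz
  obtain ⟨d, x, hd, hx, hdx⟩ := sqf_part (value_ne hs.1.ne_zero hAB z)
  have hc : Cov ℚ A B b₁ d := by
    refine cov_of_cls (value_ne hs.1.ne_zero hAB z) h1 hd.ne_zero ⟨d * x, ?_⟩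
    rw [hdx]
    ring
  exact ⟨hs, d, hd, cov_map (Rat.castHom ℝ) hc, fun p _ => cov_map (Rat.castHom ℚ_[p]) hc⟩

/-! ### Families of local zero-cycles -/

/-- a family of local zero-cycles -/
structure LCyc (A B b₁ : ℤ) where
  /-- the real component -/
  re : Cyc A B b₁ ℝ
  /-- the `p`-adic components -/
  pa : ∀ p : Nat.Primes, Cyc A B b₁ ℚ_[(p : ℕ)]

/-- all the degrees are one -/
def LCyc.DegOne (z : LCyc A B b₁) : Prop := z.re.deg = 1 ∧ ∀ p, (z.pa p).deg = 1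

/-- the values -/
noncomputable def LCyc.values (z : LCyc A B b₁) : Fam := ⟨z.re.value, fun p => (z.pa p).value⟩

/-- the orthogonality to the classes `(b₁ M² - A e², ε)` -/
def LCyc.Orth (z : LCyc A B b₁) : Prop := ∀ ε : ℤ, IsTest ε → Even (ram z.values ε).ncard

theorem fin_good' (hmul : MUL) (hpnt : PNT) (hA : A ≠ 0) (hB : B ≠ 0) (hAB : A ≠ B)
    (hb : b₁ ≠ 0) (hd : b₁ ∣ A * B) {m : ℕ} (hm : b₁.natAbs + (A - B).natAbs ≤ m)
    (z : LCyc A B b₁) (hz : z.DegOne) (p : Nat.Primes) (hp : m < (p : ℕ)) :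
    ∃ (u : ℤ) (c : ℚ_[(p : ℕ)]), ¬ ((p : ℕ) : ℤ) ∣ u ∧ c ≠ 0 ∧ (z.pa p).value = u * c ^ 2 := by
  have hdvd : ∀ m : ℤ, m ≠ 0 → m.natAbs < (p : ℕ) → ¬ ((p : ℕ) : ℤ) ∣ m := by
    intro m hm hlt hdv
    have := Nat.le_of_dvd (Int.natAbs_pos.2 hm) (Int.natCast_dvd.1 hdv)
    omega
  have h1 := cls_of_cyc hmul hpnt hA hB hAB hb hd (z.pa p) (hz.2 p)
  obtain ⟨P, r, hr⟩ := pnt_of_cls hb hd h1
  obtain ⟨u, c, hu, hc, huc⟩ := good hb hd (hdvd b₁ hb (by omega))
    (hdvd (A - B) (sub_ne_zero.2 hAB) (by omega)) P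
  have hv := val_ne hb hAB P
  have hval := value_ne hb hAB (z.pa p)
  have hr0 : r ≠ 0 := by
    rintro rfl
    rw [mul_zero] at hr
    exact mul_ne_zero hv hval hr
  refine ⟨u, c * (r / val P), hu, mul_ne_zero hc (div_ne_zero hr0 hv), ?_⟩
  have h2 : (z.pa p).value = val P * (r / val P) ^ 2 := by
    field_simp
    linear_combination hr
  rw [h2]
  conv_lhs => rw [huc]
  have h3 : (u : ℚ_[(p : ℕ)]) * (c * (r / val P)) ^ 2 =
      (u * c ^ 2) * (r / val P) ^ 2 := by ring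
  rw [h3, ← huc]

theorem mem_of_orth (hmul : MUL) (hpnt : PNT) (hA : A ≠ 0) (hB : B ≠ 0) (hAB : A ≠ B)
    (hs : b₁ ∈ SQ (-(A + B)) (A * B)) (z : LCyc A B b₁) (hz : z.DegOne) (ho : z.Orth) :
    b₁ ∈ LF A B := by
  have hb := hs.1.ne_zero
  have hd := hs.2.1
  have hfin : {p : Nat.Primes | ∀ (m : ℤ) (c : ℚ_[(p : ℕ)]), ¬ ((p : ℕ) : ℤ) ∣ m →
      z.values.pa p ≠ m * c ^ 2}.Finite := by
    have h1 : {p : Nat.Primes | (p : ℕ) ≤ b₁.natAbs + (A - B).natAbs}.Finite :=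
      (Set.finite_Iic _).preimage (Subtype.val_injective.injOn)
    refine h1.subset fun p hp => ?_
    by_contra hpz
    have hpz' : b₁.natAbs + (A - B).natAbs < (p : ℕ) := not_le.1 hpz
    obtain ⟨m, c, hm, -, hmc⟩ := fin_good' hmul hpnt hA hB hAB hb hd le_rfl z hz p hpz'
    exact hp m c hm hmc
  obtain ⟨n, hn1, hn2, hn3⟩ := hexact z.values (value_ne hb hAB z.re)
    (fun p => value_ne hb hAB (z.pa p)) hfin (fun ε hε _ => ho ε hε)
  refine ⟨hs, n, hn1, cov_of_cls (value_ne hb hAB z.re)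
    (cls_of_cyc hmul hpnt hA hB hAB hb hd z.re hz.1) hn1.ne_zero hn2, fun p hp => ?_⟩
  exact cov_of_cls (value_ne hb hAB (z.pa ⟨p, hp.out⟩))
    (cls_of_cyc hmul hpnt hA hB hAB hb hd (z.pa ⟨p, hp.out⟩) (hz.2 ⟨p, hp.out⟩)) hn1.ne_zero
    (hn3 ⟨p, hp.out⟩)

/-- the number of the places with a nontrivial symbol is finite -/
theorem ram_fin' (hmul : MUL) (hpnt : PNT) (hA : A ≠ 0) (hB : B ≠ 0) (hAB : A ≠ B)
    (hb : b₁ ≠ 0) (hd : b₁ ∣ A * B) (z : LCyc A B b₁) (hz : z.DegOne) (ε : ℤ) (hε : ε ≠ 0) :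
    (ram z.values ε).Finite := by
  have h1 : {p : Nat.Primes | (p : ℕ) ≤ b₁.natAbs + (A - B).natAbs + 2 + ε.natAbs}.Finite :=
    (Set.finite_Iic _).preimage (Subtype.val_injective.injOn)
  apply ((h1.image some).insert none).subset
  intro v hv
  match v with
  | none => exact Or.inl rfl
  | some p =>
    refine Or.inr ⟨p, ?_, rfl⟩
    by_contra hpz
    have hpz' : b₁.natAbs + (A - B).natAbs + 2 + ε.natAbs < (p : ℕ) := not_le.1 hpz
    obtain ⟨m, c, hm, hc, hmc⟩ := fin_good' hmul hpnt hA hB hAB hb hd (by omega) z hz p hpz'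
    apply hv
    change Splits ((z.pa p).value) _
    rw [hmc]
    have hdvd : ¬ ((p : ℕ) : ℤ) ∣ ε := by
      intro hdv
      have := Nat.le_of_dvd (Int.natAbs_pos.2 hε) (Int.natCast_dvd.1 hdv)
      omega
    exact (Pool.Agent.W313.BMX.splits_mul_sq hc).2
      (Pool.Agent.W335.BMX.odd2 (p : ℕ) (by omega) m ε hm hdvd)

/-- a point as a zero-cycle -/
def ofPnt {K : Type} [Field K] (P : Pnt A B b₁ K) : Cyc A B b₁ K :=
  { ι := Unit
    L := fun _ => K
    fld := fun _ => inferInstance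
    alg := fun _ => Algebra.id K
    fd := fun _ => inferInstanceAs (FiniteDimensional K K)
    P := fun _ => P
    n := fun _ => 1 }

lemma ofPnt_deg {K : Type} [Field K] (P : Pnt A B b₁ K) : (ofPnt P).deg = 1 := by
  change ∑ i : Unit, (1 : ℤ) * (Module.finrank K K : ℤ) = 1
  simp

lemma ofPnt_value {K : Type} [Field K] (P : Pnt A B b₁ K) : (ofPnt P).value = val P := by
  change ∏ i : Unit, (Algebra.norm K (val P)) ^ (1 : ℤ) = val P
  simp

/-- conversely, an everywhere locally solvable covering gives an orthogonal family of points -/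
theorem orth_of_mem (hAB : A ≠ B) (h : b₁ ∈ LF A B) :
    ∃ z : LCyc A B b₁, z.DegOne ∧ z.Orth := by
  obtain ⟨P, hP⟩ := FD.orth_of_cov h.1.1.ne_zero hAB h.1.2.1 h.2
  refine ⟨⟨ofPnt P.re, fun p => ofPnt (P.pa p)⟩, ⟨ofPnt_deg _, fun p => ofPnt_deg _⟩, ?_⟩
  intro ε hε
  have h1 : (⟨ofPnt P.re, fun p => ofPnt (P.pa p)⟩ : LCyc A B b₁).values = FD.vals P := by
    unfold LCyc.values FD.vals
    simp only [ofPnt_value]
  rw [h1]
  exact hP ε hε

end Pool.Agent.TH841.ZC
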