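import Mathlib
import Pool.Agent.TH841.ZC.Stm
import Pool.Agent.TH841.SH.Alg

/-!
# ZC-MUL: the classes of the points form a group
-/

set_option autoImplicit false

namespace Pool.Agent.TH841.ZC.MULf

open WeierstrassCurve
open Pool.Agent.TH841.SH

section

variable {K : Type} [Field K] [DecidableEq K]

/-- one component of the class of a point: at the root `a`, where the derivative is `D` -/
noncomputable def cl (W : WeierstrassCurve K) (a D : K) : W.toAffine.Point → K
  | 0 => 1
  | .some x _ _ => if x - a = 0 then D else x - a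

lemma cl_ne {W : WeierstrassCurve K} {a D : K} (hD : D ≠ 0) (P : W.toAffine.Point) :
    cl W a D P ≠ 0 := by
  rcases P with _ | ⟨x, y, h⟩
  · exact one_ne_zero
  · show (if x - a = 0 then D else x - a) ≠ 0
    by_cases hx : x - a = 0
    · rw [if_pos hx]
      exact hD
    · rw [if_neg hx]
      exact hx

lemma sq3 {D u v w ν ℓ : K} (hD : D ≠ 0) (k1 : u * v * w = ν ^ 2)
    (k2 : u * v + (u + v) * w = D - 2 * ℓ * ν) :
    IsSquare ((if u = 0 then D else u) * (if v = 0 then D else v) * (if w = 0 then D else w)) := by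
  by_cases g1 : u = 0
  · have hν : ν = 0 := by
      rw [g1, zero_mul, zero_mul] at k1
      exact pow_eq_zero_iff two_ne_zero |>.1 k1.symm
    rw [g1, hν] at k2
    have k3 : v * w = D := by linear_combination k2
    have g2 : v ≠ 0 := fun h => hD (by rw [← k3, h, zero_mul])
    have g3 : w ≠ 0 := fun h => hD (by rw [← k3, h, mul_zero])
    rw [if_pos g1, if_neg g2, if_neg g3]
    exact ⟨D, by rw [mul_assoc, k3]⟩
  by_cases g2 : v = 0
  · have hν : ν = 0 := by
      rw [g2, mul_zero, zero_mul] at k1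
      exact pow_eq_zero_iff two_ne_zero |>.1 k1.symm
    rw [g2, hν] at k2
    have k3 : u * w = D := by linear_combination k2
    have g3 : w ≠ 0 := fun h => hD (by rw [← k3, h, mul_zero])
    rw [if_neg g1, if_pos g2, if_neg g3]
    exact ⟨D, by linear_combination D * k3⟩
  by_cases g3 : w = 0
  · have hν : ν = 0 := by
      rw [g3, mul_zero] at k1
      exact pow_eq_zero_iff two_ne_zero |>.1 k1.symm
    rw [g3, hν] at k2
    have k3 : u * v = D := by linear_combination k2
    rw [if_neg g1, if_neg g2, if_pos g3]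
    exact ⟨D, by rw [k3]⟩
  · rw [if_neg g1, if_neg g2, if_neg g3]
    exact ⟨ν, by rw [k1]; ring⟩

lemma key {W : WeierstrassCurve K} {a b c : K} (hR : IsR W a b c) {x₁ x₂ y₁ y₂ : K}
    (h₁ : W.toAffine.Equation x₁ y₁) (h₂ : W.toAffine.Equation x₂ y₂)
    (hxy : ¬(x₁ = x₂ ∧ y₁ = W.toAffine.negY x₂ y₂)) :
    ∃ ν ℓ : K, (x₁ - a) * (x₂ - a) *
        (W.toAffine.addX x₁ x₂ (W.toAffine.slope x₁ x₂ y₁ y₂) - a) = ν ^ 2 ∧
      (x₁ - a) * (x₂ - a) + ((x₁ - a) + (x₂ - a)) *
        (W.toAffine.addX x₁ x₂ (W.toAffine.slope x₁ x₂ y₁ y₂) - a) =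
        (a - b) * (a - c) - 2 * ℓ * ν := by
  have h := Affine.addPolynomial_slope h₁ h₂ hxy
  set ℓ := W.toAffine.slope x₁ x₂ y₁ y₂
  set x₃ := W.toAffine.addX x₁ x₂ ℓ
  rw [Affine.addPolynomial_eq, neg_inj, Cubic.prod_X_sub_C_eq, Cubic.toPoly_injective] at h
  have hb := congrArg Cubic.b h
  have hc := congrArg Cubic.c h
  have hd := congrArg Cubic.d h
  have a1 : W.toAffine.a₁ = 0 := hR.h1
  have a2 : W.toAffine.a₂ = -(a + b + c) := hR.h2
  have a3 : W.toAffine.a₃ = 0 := hR.h3
  have a4 : W.toAffine.a₄ = a * b + a * c + b * c := hR.h4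
  have a6 : W.toAffine.a₆ = -(a * b * c) := hR.h6
  simp only [a1, a2, a3, a4, a6] at hb hc hd
  refine ⟨y₁ - ℓ * x₁ + ℓ * a, ℓ, ?_, ?_⟩
  · linear_combination hd + a * hc + a ^ 2 * hb
  · linear_combination -hc - 2 * a * hb

/-- `cl` is a homomorphism modulo squares -/
lemma cl_add {W : WeierstrassCurve K} {a b c : K} (hR : IsR W a b c) (hab : a ≠ b) (hac : a ≠ c)
    (P Q : W.toAffine.Point) :
    IsSquare (cl W a ((a - b) * (a - c)) P * cl W a ((a - b) * (a - c)) Q *
      cl W a ((a - b) * (a - c)) (P + Q)) := by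
  have hD : (a - b) * (a - c) ≠ 0 := mul_ne_zero (sub_ne_zero.2 hab) (sub_ne_zero.2 hac)
  set D := (a - b) * (a - c) with hDd
  rcases P with _ | ⟨x₁, y₁, h₁⟩
  · rw [show (Affine.Point.zero : W.toAffine.Point) = 0 from rfl, zero_add]
    exact ⟨cl W a D Q, by show 1 * _ * _ = _; ring⟩
  rcases Q with _ | ⟨x₂, y₂, h₂⟩
  · rw [show (Affine.Point.zero : W.toAffine.Point) = 0 from rfl, add_zero]
    exact ⟨cl W a D (.some x₁ y₁ h₁), by show _ * 1 * _ = _; ring⟩
  by_cases hxy : x₁ = x₂ ∧ y₁ = W.toAffine.negY x₂ y₂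
  · obtain ⟨hx, hy⟩ := hxy
    subst hx
    rw [Affine.Point.add_of_Y_eq rfl hy]
    exact ⟨cl W a D (.some x₁ y₁ h₁), by
      show (if x₁ - a = 0 then D else x₁ - a) * (if x₁ - a = 0 then D else x₁ - a) * 1 =
        (if x₁ - a = 0 then D else x₁ - a) * (if x₁ - a = 0 then D else x₁ - a)
      ring⟩
  · obtain ⟨ν, ℓ, k1, k2⟩ := key hR h₁.1 h₂.1 hxy
    rw [Affine.Point.add_some hxy]
    exact sq3 hD k1 k2

/-- the curve `y² = x (x - A) (x - B)` -/
def cv (A B : K) : WeierstrassCurve K := ⟨0, -(A + B), 0, A * B, 0⟩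

omit [DecidableEq K] in
lemma isR (A B : K) : IsR (cv A B) 0 A B :=
  ⟨rfl, by show -(A + B) = -(0 + A + B); ring, rfl,
    by show A * B = 0 * A + 0 * B + A * B; ring, by show (0 : K) = -(0 * A * B); ring⟩

omit [DecidableEq K] in
lemma isR' (A B : K) : IsR (cv A B) A 0 B := (isR A B).swap

/-- the two components -/
noncomputable def c0 (A B : K) (P : (cv A B).toAffine.Point) : K :=
  cl (cv A B) 0 ((0 - A) * (0 - B)) P

noncomputable def cA (A B : K) (P : (cv A B).toAffine.Point) : K :=
  cl (cv A B) A ((A - 0) * (A - B)) P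

lemma pt_of_cls [CharZero K] {A B α β : K} (hA : A ≠ 0) (hB : B ≠ 0) (hAB : A ≠ B) (hα : α ≠ 0)
    (h : Cls K A B α β) :
    ∃ P : (cv A B).toAffine.Point, IsSquare (c0 A B P * α) ∧ IsSquare (cA A B P * β) := by
  obtain ⟨M, e, x, y, hne, h1, h2⟩ := h
  by_cases he : e = 0
  · subst he
    have hM : M ≠ 0 := hne.resolve_right (by simp)
    have h3 : M ^ 2 = β * y ^ 2 := by
      have : α * (M ^ 2 - β * y ^ 2) = 0 := by linear_combination h2
      have := (mul_eq_zero.1 this).resolve_left hα
      linear_combination this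
    have hy : y ≠ 0 := by
      rintro rfl
      apply hM
      have : M ^ 2 = 0 := by rw [h3]; ring
      exact pow_eq_zero_iff two_ne_zero |>.1 this
    have hβ : β = (M / y) ^ 2 := by
      field_simp
      linear_combination -h3
    have hα' : α = (x / y) ^ 2 := by
      have h4 : M ^ 2 * (α * y ^ 2 - x ^ 2) = 0 := by
        linear_combination y ^ 2 * h1 - x ^ 2 * h3
      have h5 := (mul_eq_zero.1 h4).resolve_left (pow_ne_zero 2 hM)
      field_simp
      linear_combination h5
    refine ⟨0, ?_, ?_⟩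
    · show IsSquare (1 * α)
      exact ⟨x / y, by rw [hα']; ring⟩
    · show IsSquare (1 * β)
      exact ⟨M / y, by rw [hβ]; ring⟩
  · obtain ⟨X, hX⟩ : ∃ X : K, X = α * (M / e) ^ 2 := ⟨_, rfl⟩
    obtain ⟨Y, hYd⟩ : ∃ Y : K, Y = α * β * (M / e) * (x / e) * (y / e) := ⟨_, rfl⟩
    have hX1 : X - A = β * (x / e) ^ 2 := by
      rw [hX]
      field_simp
      linear_combination h1
    have hX2 : X - B = α * β * (y / e) ^ 2 := by
      rw [hX]
      field_simp
      linear_combination h2
    have hY : Y ^ 2 = (X - 0) * (X - A) * (X - B) := by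
      rw [hX1, hX2, hYd, hX]
      ring
    have hn := (isR A B).nons two_ne_zero hA.symm hB.symm hAB hY
    refine ⟨.some X Y hn, ?_, ?_⟩
    · show IsSquare ((if X - 0 = 0 then (0 - A) * (0 - B) else X - 0) * α)
      by_cases h : X - 0 = 0
      · rw [if_pos h]
        have h0 : X = 0 := by linear_combination h
        refine ⟨α * β * (x / e) * (y / e), ?_⟩
        rw [h0] at hX1 hX2
        rw [hX1, hX2]
        ring
      · rw [if_neg h]
        exact ⟨α * (M / e), by rw [hX]; ring⟩
    · show IsSquare ((if X - A = 0 then (A - 0) * (A - B) else X - A) * β)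
      by_cases h : X - A = 0
      · rw [if_pos h]
        have h0 : X = A := by linear_combination h
        refine ⟨α * β * (M / e) * (y / e), ?_⟩
        have e1 : A - 0 = α * (M / e) ^ 2 := by rw [← hX, h0]; ring
        have e2 : A - B = α * β * (y / e) ^ 2 := by rw [← hX2, h0]
        rw [e1, e2]
        ring
      · rw [if_neg h]
        exact ⟨β * (x / e), by rw [hX1]; ring⟩

lemma cls_of_pt {A B α β : K} (hA : A ≠ 0) (hα : α ≠ 0) (hβ : β ≠ 0)
    (P : (cv A B).toAffine.Point) (h0 : IsSquare (c0 A B P * α)) (h1 : IsSquare (cA A B P * β)) :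
    Cls K A B α β := by
  rcases P with _ | ⟨X, Y, hn⟩
  · change IsSquare (1 * α) at h0
    change IsSquare (1 * β) at h1
    obtain ⟨a, ha⟩ := h0
    obtain ⟨b, hb⟩ := h1
    rw [one_mul] at ha hb
    have hb0 : b ≠ 0 := by rintro rfl; apply hβ; rw [hb]; ring
    refine ⟨1, 0, a / b, 1 / b, Or.inl one_ne_zero, ?_, ?_⟩
    · rw [ha, hb]; field_simp; ring
    · rw [ha, hb]; field_simp; ring
  · have he := ((isR A B).eqn X Y).1 hn.1
    change IsSquare ((if X - 0 = 0 then (0 - A) * (0 - B) else X - 0) * α) at h0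
    change IsSquare ((if X - A = 0 then (A - 0) * (A - B) else X - A) * β) at h1
    obtain ⟨a, ha⟩ := h0
    obtain ⟨b, hb⟩ := h1
    by_cases hX : X - 0 = 0
    · rw [if_pos hX] at ha
      have hX0 : X = 0 := by linear_combination hX
      have hXA : X - A ≠ 0 := by rw [hX0, zero_sub]; exact neg_ne_zero.2 hA
      rw [if_neg hXA, hX0] at hb
      refine ⟨0, 1, b / β, a * b / (A * α * β), Or.inr one_ne_zero, ?_, ?_⟩
      · field_simp
        linear_combination hb
      · field_simp
        linear_combination (-1 : K) * A * β * ha + a ^ 2 * hb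
    · rw [if_neg hX] at ha
      have hX0 : X ≠ 0 := fun h => hX (by rw [h, sub_zero])
      by_cases hXA : X - A = 0
      · rw [if_pos hXA] at hb
        have hXA' : X = A := by linear_combination hXA
        rw [hXA'] at ha
        refine ⟨a / α, 1, 0, a * b / (A * α * β), Or.inr one_ne_zero, ?_, ?_⟩
        · field_simp
          linear_combination -ha
        · have q1 : α * (a / α) ^ 2 = A := by
            field_simp
            linear_combination -ha
          have q2 : α * β * (a * b / (A * α * β)) ^ 2 = A - B := by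
            field_simp
            linear_combination (-b ^ 2) * ha - A * α * hb
          rw [q1, q2]
          ring
      · rw [if_neg hXA] at hb
        have ha0 : a ≠ 0 := by
          rintro rfl
          apply mul_ne_zero hX hα
          rw [ha, mul_zero]
        have hb0 : b ≠ 0 := by
          rintro rfl
          apply mul_ne_zero hXA hβ
          rw [hb, mul_zero]
        refine ⟨a / α, 1, b / β, Y / (a * b), Or.inr one_ne_zero, ?_, ?_⟩
        · have q1 : α * (a / α) ^ 2 = X := by
            field_simp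
            linear_combination -ha
          have q2 : β * (b / β) ^ 2 = X - A := by
            field_simp
            linear_combination -hb
          rw [q1, q2]
          ring
        · have q1 : α * (a / α) ^ 2 = X := by
            field_simp
            linear_combination -ha
          have q2 : α * β * (Y / (a * b)) ^ 2 = X - B := by
            field_simp
            linear_combination α * β * he + (X - B) * (X - A) * β * ha + (X - B) * a ^ 2 * hb
          rw [q1, q2]
          ring

end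

theorem mul : Pool.Agent.TH841.ZC.MUL := by
  intro K _ _ A B α β α' β' hA hB hAB hα hβ hα' hβ' h h'
  classical
  obtain ⟨P, p0, pA⟩ := pt_of_cls hA hB hAB hα h
  obtain ⟨Q, q0, qA⟩ := pt_of_cls hA hB hAB hα' h'
  have s0 := cl_add (isR A B) hA.symm hB.symm P Q
  have sA := cl_add (isR' A B) hA hAB P Q
  have n0 : ((0 : K) - A) * (0 - B) ≠ 0 :=
    mul_ne_zero (sub_ne_zero.2 hA.symm) (sub_ne_zero.2 hB.symm)
  have nA : (A - (0 : K)) * (A - B) ≠ 0 := mul_ne_zero (sub_ne_zero.2 hA) (sub_ne_zero.2 hAB)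
  have gen : ∀ u v w r s : K, u ≠ 0 → v ≠ 0 → IsSquare (u * v * w) → IsSquare (u * r) →
      IsSquare (v * s) → IsSquare (w * (r * s)) := by
    rintro u v w r s hu hv ⟨f, hf⟩ ⟨g, hg⟩ ⟨k, hk⟩
    refine ⟨f * g * k / (u * v) , ?_⟩
    field_simp
    linear_combination u * r * v * s * hf + f ^ 2 * v * s * hg + f ^ 2 * g ^ 2 * hk
  refine cls_of_pt hA (mul_ne_zero hα hα') (mul_ne_zero hβ hβ') (P + Q) ?_ ?_
  · exact gen _ _ _ _ _ (cl_ne n0 P) (cl_ne n0 Q) s0 p0 q0
  · exact gen _ _ _ _ _ (cl_ne nA P) (cl_ne nA Q) sA pA qA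

end Pool.Agent.TH841.ZC.MULf
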