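import Mathlib
import Pool.Agent.TH841.ZC.Stm

/-!
# ZC-MUM: the class of a divisor in Mumford representation is the class of a point (helper200)

Riemann–Roch by linear algebra: there are `p`, `q`, not both zero, with `u ∣ p - q v` and
`deg (p² - q² F) ≤ deg u + 1`, so `p² - q² F = c u w` with `deg w ≤ 1`.
-/

set_option autoImplicit false

namespace Pool.Agent.TH841.ZC.MUMf

open Polynomial

lemma exists_pq {K : Type} [Field K] (u v : K[X]) (hu : u.Monic) :
    ∃ p q : K[X], (p ≠ 0 ∨ q ≠ 0) ∧ 2 * p.natDegree ≤ u.natDegree + 1 ∧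
      (q ≠ 0 → 2 * q.natDegree + 3 ≤ u.natDegree + 1) ∧ u ∣ p - q * v := by
  obtain ⟨n, hn⟩ : ∃ n, n = u.natDegree := ⟨_, rfl⟩
  obtain ⟨a, ha⟩ : ∃ a, a = (n + 1) / 2 + 1 := ⟨_, rfl⟩
  obtain ⟨b, hb⟩ : ∃ b, b = n / 2 := ⟨_, rfl⟩
  let Pa : (Fin a → K) →ₗ[K] K[X] :=
    (degreeLT K a).subtype ∘ₗ (degreeLTEquiv K a).symm.toLinearMap
  let Pb : (Fin b → K) →ₗ[K] K[X] :=
    (degreeLT K b).subtype ∘ₗ (degreeLTEquiv K b).symm.toLinearMap
  have hPa : ∀ x, Pa x = 0 → x = 0 := by
    intro x hx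
    have h1 : (degreeLTEquiv K a).symm x = 0 := Subtype.ext hx
    exact (LinearEquiv.map_eq_zero_iff _).mp h1
  have hPb : ∀ x, Pb x = 0 → x = 0 := by
    intro x hx
    have h1 : (degreeLTEquiv K b).symm x = 0 := Subtype.ext hx
    exact (LinearEquiv.map_eq_zero_iff _).mp h1
  have dPa : ∀ x, (Pa x).degree < a := fun x =>
    mem_degreeLT.mp ((degreeLTEquiv K a).symm x).2
  have dPb : ∀ x, (Pb x).degree < b := fun x =>
    mem_degreeLT.mp ((degreeLTEquiv K b).symm x).2
  let f : ((Fin a → K) × (Fin b → K)) →ₗ[K] AdjoinRoot u :=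
    ((AdjoinRoot.mkₐ u).toLinearMap ∘ₗ Pa).coprod
      (-((AdjoinRoot.mkₐ u).toLinearMap ∘ₗ (LinearMap.mulRight K v) ∘ₗ Pb))
  have hfin : Module.Finite K (AdjoinRoot u) := (AdjoinRoot.powerBasis' hu).finite
  have hker : LinearMap.ker f ≠ ⊥ := by
    apply LinearMap.ker_ne_bot_of_finrank_lt
    rw [Module.finrank_prod, Module.finrank_fin_fun, Module.finrank_fin_fun,
      (AdjoinRoot.powerBasis' hu).finrank, AdjoinRoot.powerBasis'_dim, ← hn]
    omega
  obtain ⟨⟨x, y⟩, hxy, hne⟩ := (Submodule.ne_bot_iff _).mp hker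
  refine ⟨Pa x, Pb y, ?_, ?_, ?_, ?_⟩
  · by_contra hcon
    push Not at hcon
    apply hne
    rw [hPa x hcon.1, hPb y hcon.2]
    rfl
  · by_cases h0 : Pa x = 0
    · rw [h0]
      simp
    · have h1 := (natDegree_lt_iff_degree_lt h0).mpr (dPa x)
      omega
  · intro h0
    have h1 := (natDegree_lt_iff_degree_lt h0).mpr (dPb y)
    omega
  · have h1 : AdjoinRoot.mk u (Pa x) + -(AdjoinRoot.mk u (Pb y * v)) = 0 := hxy
    rw [← AdjoinRoot.mk_eq_zero, map_sub, sub_eq_add_neg]
    exact h1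

lemma norm_facts {K : Type} [Field K] {A B : K} {p q : K[X]} {n : ℕ} (h0 : p ≠ 0 ∨ q ≠ 0)
    (hp : 2 * p.natDegree ≤ n + 1) (hq : q ≠ 0 → 2 * q.natDegree + 3 ≤ n + 1) :
    p ^ 2 - q ^ 2 * (X * (X - C A) * (X - C B)) ≠ 0 ∧
    (p ^ 2 - q ^ 2 * (X * (X - C A) * (X - C B))).natDegree ≤ n + 1 ∧
    ∃ s : K, s ≠ 0 ∧ (p ^ 2 - q ^ 2 * (X * (X - C A) * (X - C B))).leadingCoeff =
      (-1) ^ (p ^ 2 - q ^ 2 * (X * (X - C A) * (X - C B))).natDegree * s ^ 2 := by
  obtain ⟨F, hF⟩ : ∃ F : K[X], F = X * (X - C A) * (X - C B) := ⟨_, rfl⟩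
  have hFm : F.Monic := by
    rw [hF]
    exact (monic_X.mul (monic_X_sub_C A)).mul (monic_X_sub_C B)
  have hFd : F.natDegree = 3 := by
    rw [hF, ((monic_X.mul (monic_X_sub_C A))).natDegree_mul (monic_X_sub_C B),
      monic_X.natDegree_mul (monic_X_sub_C A), natDegree_X, natDegree_X_sub_C, natDegree_X_sub_C]
  rw [← hF]
  have dp : (p ^ 2).natDegree = 2 * p.natDegree := natDegree_pow p 2
  have dq : q ≠ 0 → (q ^ 2 * F).natDegree = 2 * q.natDegree + 3 := by
    intro hq0
    rw [natDegree_mul (pow_ne_zero 2 hq0) hFm.ne_zero, natDegree_pow, hFd]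
  have hne : (p ^ 2).degree ≠ (q ^ 2 * F).degree := by
    intro h
    by_cases hp0 : p = 0
    · have hq0 : q ≠ 0 := by
        rcases h0 with h1 | h1
        · exact absurd hp0 h1
        · exact h1
      rw [hp0, zero_pow two_ne_zero, degree_zero] at h
      exact mul_ne_zero (pow_ne_zero 2 hq0) hFm.ne_zero (degree_eq_bot.mp h.symm)
    · by_cases hq0 : q = 0
      · rw [hq0, zero_pow two_ne_zero, zero_mul, degree_zero] at h
        exact pow_ne_zero 2 hp0 (degree_eq_bot.mp h)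
      · have h1 := natDegree_eq_of_degree_eq h
        rw [dp, dq hq0] at h1
        omega
  rcases lt_or_gt_of_ne hne with h | h
  · have hq0 : q ≠ 0 := by
      rintro rfl
      rw [zero_pow two_ne_zero, zero_mul, degree_zero] at h
      exact not_lt_bot h
    have e1 : (p ^ 2 - q ^ 2 * F).natDegree = 2 * q.natDegree + 3 := by
      rw [natDegree_eq_of_degree_eq (degree_sub_eq_right_of_degree_lt h), dq hq0]
    have e2 : (p ^ 2 - q ^ 2 * F).leadingCoeff = -(q.leadingCoeff ^ 2) := by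
      rw [leadingCoeff_sub_of_degree_lt' h, leadingCoeff_mul, leadingCoeff_pow,
        hFm.leadingCoeff, mul_one]
    refine ⟨?_, ?_, q.leadingCoeff, leadingCoeff_ne_zero.mpr hq0, ?_⟩
    · rw [← leadingCoeff_ne_zero, e2]
      exact neg_ne_zero.mpr (pow_ne_zero 2 (leadingCoeff_ne_zero.mpr hq0))
    · rw [e1]
      exact hq hq0
    · rw [e1, e2, pow_add, pow_mul]
      norm_num
  · have hp0 : p ≠ 0 := by
      rintro rfl
      rw [zero_pow two_ne_zero, degree_zero] at h
      exact not_lt_bot h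
    have e1 : (p ^ 2 - q ^ 2 * F).natDegree = 2 * p.natDegree := by
      rw [natDegree_eq_of_degree_eq (degree_sub_eq_left_of_degree_lt h), dp]
    have e2 : (p ^ 2 - q ^ 2 * F).leadingCoeff = p.leadingCoeff ^ 2 := by
      rw [leadingCoeff_sub_of_degree_lt h, leadingCoeff_pow]
    refine ⟨?_, ?_, p.leadingCoeff, leadingCoeff_ne_zero.mpr hp0, ?_⟩
    · rw [← leadingCoeff_ne_zero, e2]
      exact pow_ne_zero 2 (leadingCoeff_ne_zero.mpr hp0)
    · rw [e1]
      exact hp
    · rw [e1, e2, pow_mul]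
      norm_num

lemma cls_sq {K : Type} [Field K] {A B α β r t : K} (h : Cls K A B α β) (hr : r ≠ 0) (ht : t ≠ 0) :
    Cls K A B (α * r ^ 2) (β * t ^ 2) := by
  obtain ⟨M, e, x, y, h0, h1, h2⟩ := h
  refine ⟨M / r, e, x / t, y / (r * t), ?_, ?_, ?_⟩
  · rcases h0 with h0 | h0
    · exact Or.inl (div_ne_zero h0 hr)
    · exact Or.inr h0
  · have e1 : α * r ^ 2 * (M / r) ^ 2 = α * M ^ 2 := by field_simp
    have e2 : β * t ^ 2 * (x / t) ^ 2 = β * x ^ 2 := by field_simp
    rw [e1, e2, h1]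
  · have e1 : α * r ^ 2 * (M / r) ^ 2 = α * M ^ 2 := by field_simp
    have e2 : α * r ^ 2 * (β * t ^ 2) * (y / (r * t)) ^ 2 = α * β * y ^ 2 := by field_simp
    rw [e1, e2, h2]

lemma cls_sq' {K : Type} [Field K] {A B α β γ δ r t : K} (h : Cls K A B α β) (hr : r ≠ 0)
    (ht : t ≠ 0) (h1 : γ = α * r ^ 2) (h2 : δ = β * t ^ 2) : Cls K A B γ δ := by
  rw [h1, h2]
  exact cls_sq h hr ht

lemma cls_one {K : Type} [Field K] (A B : K) : Cls K A B 1 1 :=
  ⟨1, 0, 1, 1, Or.inl one_ne_zero, by ring, by ring⟩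

lemma cls_pt {K : Type} [Field K] {A B θ y : K} (h0 : θ ≠ 0) (hA : θ - A ≠ 0)
    (hy : θ * (θ - A) * (θ - B) = y ^ 2) : Cls K A B θ (θ - A) := by
  refine ⟨1, 1, 1, y / (θ * (θ - A)), Or.inl one_ne_zero, by ring, ?_⟩
  rw [div_pow, ← hy]
  field_simp

lemma cls_zero {K : Type} [Field K] {A B : K} (hA : A ≠ 0) : Cls K A B (A * B) (-A) := by
  refine ⟨0, 1, 1, 1 / A, Or.inr one_ne_zero, by ring, ?_⟩
  field_simp
  ring

lemma cls_A {K : Type} [Field K] {A B : K} (hA : A ≠ 0) : Cls K A B A (A * (A - B)) := by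
  refine ⟨1, 1, 0, 1 / A, Or.inr one_ne_zero, by ring, ?_⟩
  field_simp
  try ring

lemma cls_B {K : Type} [Field K] {A B : K} : Cls K A B B (B - A) :=
  ⟨1, 1, 1, 0, Or.inr one_ne_zero, by ring, by ring⟩

/-- the value at a point of order two -/
lemma val_two {K : Type} [Field K] {p q u G : K[X]} {a c : K}
    (h : p ^ 2 - q ^ 2 * ((X - C a) * G) = u * (C c * (X - C a))) (hp : p.eval a = 0) :
    -(q.eval a ^ 2 * G.eval a) = c * u.eval a := by
  obtain ⟨p', rfl⟩ := dvd_iff_isRoot.mpr (show IsRoot p a from hp)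
  have h1 : (X - C a) * ((X - C a) * p' ^ 2 - q ^ 2 * G) = (X - C a) * (u * C c) := by
    linear_combination h
  have h2 := mul_left_cancel₀ (X_sub_C_ne_zero a) h1
  have h3 := congrArg (eval a) h2
  simp only [eval_sub, eval_mul, eval_pow, eval_X, eval_C, sub_self, zero_mul, zero_sub] at h3
  linear_combination h3

theorem mum (hmul : Pool.Agent.TH841.ZC.MUL) : Pool.Agent.TH841.ZC.MUM := by
  intro K _ _ A B u v hA hB hAB hu hdvd hu0 huA huB
  obtain ⟨p, q, h0, hp, hq, hpq⟩ := exists_pq u v hu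
  obtain ⟨hN0, hNd, s, hs, hNl⟩ := norm_facts (A := A) (B := B) h0 hp hq
  obtain ⟨F, hF⟩ : ∃ F : K[X], F = X * (X - C A) * (X - C B) := ⟨_, rfl⟩
  rw [← hF] at hN0 hNd hNl hdvd
  have hF0 : F.eval 0 = 0 := by rw [hF]; simp
  have hFA : F.eval A = 0 := by rw [hF]; simp
  have hFB : F.eval B = 0 := by rw [hF]; simp
  have hFe : ∀ t : K, F.eval t = t * (t - A) * (t - B) := by
    intro t
    rw [hF]
    simp
  obtain ⟨n, hn⟩ : ∃ n, n = u.natDegree := ⟨_, rfl⟩
  rw [← hn] at hNd ⊢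
  -- `u` divides the norm
  have hdN : u ∣ p ^ 2 - q ^ 2 * F := by
    have e : p ^ 2 - q ^ 2 * F = (p - q * v) * (p + q * v) - q ^ 2 * (F - v ^ 2) := by ring
    rw [e]
    exact dvd_sub (hpq.mul_right _) (hdvd.mul_left _)
  obtain ⟨w, hw⟩ := hdN
  have hw0 : w ≠ 0 := by
    rintro rfl
    rw [mul_zero] at hw
    exact hN0 hw
  have hwd : (p ^ 2 - q ^ 2 * F).natDegree = n + w.natDegree := by
    rw [hw, hu.natDegree_mul' hw0, ← hn]
  have hwl : (p ^ 2 - q ^ 2 * F).leadingCoeff = w.leadingCoeff := by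
    rw [hw, leadingCoeff_mul, hu.leadingCoeff, one_mul]
  rw [hwd] at hNd hNl
  rw [hwl] at hNl
  have hev : ∀ t : K, p.eval t ^ 2 - q.eval t ^ 2 * F.eval t = u.eval t * w.eval t := by
    intro t
    have := congrArg (eval t) hw
    simpa using this
  have hsq : ((-1 : K) ^ n) * (-1) ^ n = 1 := by
    rw [← mul_pow]
    norm_num
  have hn0 : ((-1 : K) ^ n) ≠ 0 := pow_ne_zero _ (by norm_num)
  obtain ⟨α, hα⟩ : ∃ α, α = (-1) ^ n * u.eval 0 := ⟨_, rfl⟩
  obtain ⟨β, hβ⟩ : ∃ β, β = (-1) ^ n * u.eval A := ⟨_, rfl⟩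
  have hα0 : α ≠ 0 := by
    rw [hα]
    exact mul_ne_zero hn0 hu0
  have hβ0 : β ≠ 0 := by
    rw [hβ]
    exact mul_ne_zero hn0 huA
  have hα' : u.eval 0 = (-1) ^ n * α := by
    rw [hα, ← mul_assoc, hsq, one_mul]
  have hβ' : u.eval A = (-1) ^ n * β := by
    rw [hβ, ← mul_assoc, hsq, one_mul]
  rw [← hα, ← hβ]
  have hwcases : w.natDegree = 0 ∨ w.natDegree = 1 := by omega
  rcases hwcases with hd | hd
  · -- `w` is constant
    have hwc : ∀ t : K, w.eval t = (-1) ^ n * s ^ 2 := by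
      intro t
      rw [eq_C_of_natDegree_eq_zero hd, eval_C]
      rw [hd, add_zero, leadingCoeff, hd] at hNl
      exact hNl
    have k0 := hev 0
    have kA := hev A
    rw [hF0, mul_zero, sub_zero, hwc, hα'] at k0
    rw [hFA, mul_zero, sub_zero, hwc, hβ'] at kA
    have k0' : p.eval 0 ^ 2 = α * s ^ 2 := by linear_combination k0 + α * s ^ 2 * hsq
    have kA' : p.eval A ^ 2 = β * s ^ 2 := by linear_combination kA + β * s ^ 2 * hsq
    have hp0 : p.eval 0 ≠ 0 := by
      intro h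
      rw [h, zero_pow two_ne_zero] at k0'
      exact mul_ne_zero hα0 (pow_ne_zero 2 hs) k0'.symm
    have hpA : p.eval A ≠ 0 := by
      intro h
      rw [h, zero_pow two_ne_zero] at kA'
      exact mul_ne_zero hβ0 (pow_ne_zero 2 hs) kA'.symm
    refine cls_sq' (cls_one A B) (div_ne_zero hp0 hs) (div_ne_zero hpA hs) ?_ ?_
    · rw [div_pow, k0']
      field_simp
    · rw [div_pow, kA']
      field_simp
  · -- `w` is linear
    obtain ⟨c, hc⟩ : ∃ c, c = w.coeff 1 := ⟨_, rfl⟩
    have hlc : c = (-1) ^ (n + 1) * s ^ 2 := by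
      rw [hd, leadingCoeff, hd, ← hc] at hNl
      exact hNl
    have hc0 : c ≠ 0 := by
      rw [hlc]
      exact mul_ne_zero (pow_ne_zero _ (by norm_num)) (pow_ne_zero 2 hs)
    obtain ⟨θ, hθ⟩ : ∃ θ, θ = -(w.coeff 0 / c) := ⟨_, rfl⟩
    have hww : w = C c * (X - C θ) := by
      have h1 := eq_X_add_C_of_natDegree_le_one (le_of_eq hd)
      rw [← hc] at h1
      have h2 : w.coeff 0 = -(c * θ) := by
        rw [hθ]
        field_simp
      rw [h2] at h1
      rw [h1, C_neg, C_mul]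
      ring
    rw [hww] at hw
    have hev2 : ∀ t : K, p.eval t ^ 2 - q.eval t ^ 2 * F.eval t =
        (-1) ^ n * u.eval t * (θ - t) * s ^ 2 := by
      intro t
      rw [hev t, hww, eval_mul, eval_C, eval_sub, eval_X, eval_C, hlc, pow_succ]
      ring
    have k0 := hev2 0
    have kA := hev2 A
    have kθ := hev2 θ
    rw [hF0, mul_zero, sub_zero, ← hα, sub_zero] at k0
    rw [hFA, mul_zero, sub_zero, ← hβ] at kA
    rw [sub_self, mul_zero, zero_mul, hFe] at kθ
    by_cases hθ0 : θ = 0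
    · rw [hθ0] at k0 kA hw
      have hp0 : p.eval 0 = 0 := by
        have : p.eval 0 ^ 2 = 0 := by rw [k0]; ring
        exact pow_eq_zero_iff (two_ne_zero) |>.mp this
      have h1 : p ^ 2 - q ^ 2 * ((X - C 0) * ((X - C A) * (X - C B))) =
          u * (C c * (X - C 0)) := by
        rw [← hw, hF, C_0, sub_zero]
        ring
      have h2 := val_two h1 hp0
      simp only [eval_mul, eval_sub, eval_X, eval_C] at h2
      rw [hα', hlc, pow_succ] at h2
      have h3 : q.eval 0 ^ 2 * (A * B) = α * s ^ 2 := by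
        linear_combination -h2 + α * s ^ 2 * hsq
      have hq0 : q.eval 0 ≠ 0 := by
        intro h
        rw [h, zero_pow two_ne_zero, zero_mul] at h3
        exact mul_ne_zero hα0 (pow_ne_zero 2 hs) h3.symm
      have hpA : p.eval A ≠ 0 := by
        intro h
        rw [h, zero_pow two_ne_zero, zero_sub] at kA
        exact mul_ne_zero (mul_ne_zero hβ0 (neg_ne_zero.mpr hA)) (pow_ne_zero 2 hs) kA.symm
      refine cls_sq' (cls_zero (B := B) hA) (div_ne_zero hq0 hs)
        (div_ne_zero hpA (mul_ne_zero hA hs)) ?_ ?_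
      · rw [div_pow]
        field_simp
        linear_combination -h3
      · rw [div_pow, kA]
        field_simp
        try ring
    by_cases hθA : θ = A
    · rw [hθA] at k0 kA hw
      have hpA : p.eval A = 0 := by
        have : p.eval A ^ 2 = 0 := by rw [kA]; ring
        exact pow_eq_zero_iff (two_ne_zero) |>.mp this
      have h1 : p ^ 2 - q ^ 2 * ((X - C A) * (X * (X - C B))) =
          u * (C c * (X - C A)) := by
        rw [← hw, hF]
        ring
      have h2 := val_two h1 hpA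
      simp only [eval_mul, eval_sub, eval_X, eval_C] at h2
      rw [hβ', hlc, pow_succ] at h2
      have h3 : q.eval A ^ 2 * (A * (A - B)) = β * s ^ 2 := by
        linear_combination -h2 + β * s ^ 2 * hsq
      have hqA : q.eval A ≠ 0 := by
        intro h
        rw [h, zero_pow two_ne_zero, zero_mul] at h3
        exact mul_ne_zero hβ0 (pow_ne_zero 2 hs) h3.symm
      have hp0 : p.eval 0 ≠ 0 := by
        intro h
        rw [h, zero_pow two_ne_zero] at k0
        exact mul_ne_zero (mul_ne_zero hα0 hA) (pow_ne_zero 2 hs) k0.symm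
      refine cls_sq' (cls_A (B := B) hA) (div_ne_zero hp0 (mul_ne_zero hA hs))
        (div_ne_zero hqA hs) ?_ ?_
      · rw [div_pow, k0]
        field_simp
      · rw [div_pow]
        field_simp
        linear_combination -h3
    have hpA : p.eval A ≠ 0 := by
      intro h
      rw [h, zero_pow two_ne_zero] at kA
      exact mul_ne_zero (mul_ne_zero hβ0 (sub_ne_zero.mpr hθA)) (pow_ne_zero 2 hs) kA.symm
    have hp0 : p.eval 0 ≠ 0 := by
      intro h
      rw [h, zero_pow two_ne_zero] at k0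
      exact mul_ne_zero (mul_ne_zero hα0 hθ0) (pow_ne_zero 2 hs) k0.symm
    have hθA' : θ - A ≠ 0 := sub_ne_zero.mpr hθA
    have hbase : Cls K A B θ (θ - A) := by
      by_cases hqθ : q.eval θ = 0
      · -- then `θ` is a root of `u`
        have hpθ : p.eval θ = 0 := by
          rw [hqθ] at kθ
          have : p.eval θ ^ 2 = 0 := by linear_combination kθ
          exact pow_eq_zero_iff (two_ne_zero) |>.mp this
        have huθ : u.eval θ = 0 := by
          obtain ⟨p', hp'⟩ := dvd_iff_isRoot.mpr (show IsRoot p θ from hpθ)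
          obtain ⟨q', hq'⟩ := dvd_iff_isRoot.mpr (show IsRoot q θ from hqθ)
          rw [hp', hq'] at hw
          have h1 : (X - C θ) * ((X - C θ) * (p' ^ 2 - q' ^ 2 * F)) = (X - C θ) * (u * C c) := by
            linear_combination hw
          have h2 := mul_left_cancel₀ (X_sub_C_ne_zero θ) h1
          have h3 := congrArg (eval θ) h2
          simp only [eval_sub, eval_mul, eval_X, eval_C, sub_self, zero_mul] at h3
          exact (mul_eq_zero.mp h3.symm).resolve_right hc0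
        obtain ⟨z, hz⟩ := hdvd
        have h4 := congrArg (eval θ) hz
        rw [eval_sub, eval_pow, eval_mul, huθ, zero_mul, hFe] at h4
        exact cls_pt (y := v.eval θ) hθ0 hθA' (by linear_combination h4)
      · refine cls_pt (y := p.eval θ / q.eval θ) hθ0 hθA' ?_
        rw [div_pow]
        field_simp
        linear_combination -kθ
    refine cls_sq' hbase (div_ne_zero hp0 (mul_ne_zero hθ0 hs))
      (div_ne_zero hpA (mul_ne_zero hθA' hs)) ?_ ?_
    · rw [div_pow, k0]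
      field_simp
    · rw [div_pow, kA]
      field_simp

end Pool.Agent.TH841.ZC.MUMf
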