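import Mathlib
import Pool.Agent.TH841.ZC.Stm

/-!
# ZC-NRM: the norm of the class of a point over a finite extension is the class of a point
-/

set_option autoImplicit false

namespace Pool.Agent.TH841.ZC.NRMf

open Polynomial

theorem norm_sub_gen {K L : Type} [Field K] [Field L] [Algebra K L] (pb : PowerBasis K L) (t : K) :
    Algebra.norm K (algebraMap K L t - pb.gen) = (minpoly K pb.gen).eval t := by
  rw [Algebra.norm_eq_matrix_det pb.basis, map_sub, AlgHom.commutes, ← charpoly_leftMulMatrix,
    Matrix.eval_charpoly]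
  rfl

theorem norm_gen_sub {K L : Type} [Field K] [Field L] [Algebra K L] (pb : PowerBasis K L) (t : K) :
    Algebra.norm K (pb.gen - algebraMap K L t) = (-1) ^ pb.dim * (minpoly K pb.gen).eval t := by
  have e : pb.gen - algebraMap K L t = algebraMap K L (-1) * (algebraMap K L t - pb.gen) := by
    rw [map_neg, map_one]
    ring
  rw [e, map_mul, Algebra.norm_algebraMap, pb.finrank, norm_sub_gen]

/-- the norm of `θ - t` through the field of `θ` -/
theorem norm_sub {K L : Type} [Field K] [Field L] [Algebra K L] [FiniteDimensional K L]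
    (θ : L) (t : K) :
    Algebra.norm K (θ - algebraMap K L t) =
      ((-1) ^ (minpoly K θ).natDegree * (minpoly K θ).eval t) ^
        Module.finrank (IntermediateField.adjoin K {θ}) L := by
  have hint : IsIntegral K θ := Algebra.IsIntegral.isIntegral θ
  have hgen : (IntermediateField.adjoin.powerBasis hint).gen
      = IntermediateField.AdjoinSimple.gen K θ := rfl
  have hdim : (IntermediateField.adjoin.powerBasis hint).dim = (minpoly K θ).natDegree :=
    IntermediateField.adjoin.powerBasis_dim hint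
  have hmp : minpoly K (IntermediateField.adjoin.powerBasis hint).gen = minpoly K θ := by
    rw [hgen]
    exact IntermediateField.minpoly_gen K θ
  have e : θ - algebraMap K L t = algebraMap (IntermediateField.adjoin K {θ}) L
      ((IntermediateField.adjoin.powerBasis hint).gen
        - algebraMap K (IntermediateField.adjoin K {θ}) t) := by
    rw [map_sub, hgen, IntermediateField.AdjoinSimple.algebraMap_gen,
      ← IsScalarTower.algebraMap_apply K (IntermediateField.adjoin K {θ}) L]
  rw [← Algebra.norm_norm (S := IntermediateField.adjoin K {θ}), e, Algebra.norm_algebraMap,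
    map_pow, norm_gen_sub, hdim, hmp]

theorem cls_one {K : Type} [Field K] (A B : K) : Cls K A B 1 1 :=
  ⟨1, 0, 1, 1, Or.inl one_ne_zero, by ring, by ring⟩

theorem cls_scale {K : Type} [Field K] {A B α β : K} {s t : K} (hs : s ≠ 0) (ht : t ≠ 0)
    (h : Cls K A B α β) : Cls K A B (α * s ^ 2) (β * t ^ 2) := by
  obtain ⟨M, e, x, y, hM, h1, h2⟩ := h
  refine ⟨M / s, e, x / t, y / (s * t), ?_, ?_, ?_⟩
  · rcases hM with hM | he
    · exact Or.inl (div_ne_zero hM hs)
    · exact Or.inr he
  · have e1 : α * s ^ 2 * (M / s) ^ 2 = α * M ^ 2 := by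
      field_simp
    have e2 : β * t ^ 2 * (x / t) ^ 2 = β * x ^ 2 := by
      field_simp
    rw [e1, e2, h1]
  · have e1 : α * s ^ 2 * (M / s) ^ 2 = α * M ^ 2 := by
      field_simp
    have e2 : α * s ^ 2 * (β * t ^ 2) * (y / (s * t)) ^ 2 = α * β * y ^ 2 := by
      field_simp
    rw [e1, e2, h2]

theorem cls_even {K : Type} [Field K] {A B α β : K} (hα : α ≠ 0) (hβ : β ≠ 0) {d : ℕ}
    (hd : Even d) : Cls K A B (α ^ d) (β ^ d) := by
  obtain ⟨k, rfl⟩ := hd
  have h := cls_scale (pow_ne_zero k hα) (pow_ne_zero k hβ) (cls_one A B)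
  have e1 : ∀ a : K, 1 * (a ^ k) ^ 2 = a ^ (k + k) := fun a => by ring
  rwa [e1, e1] at h

theorem cls_odd {K : Type} [Field K] {A B α β : K} (hα : α ≠ 0) (hβ : β ≠ 0) {d : ℕ}
    (hd : Odd d) (h : Cls K A B α β) : Cls K A B (α ^ d) (β ^ d) := by
  obtain ⟨k, rfl⟩ := hd
  have h := cls_scale (pow_ne_zero k hα) (pow_ne_zero k hβ) h
  have e1 : ∀ a : K, a * (a ^ k) ^ 2 = a ^ (2 * k + 1) := fun a => by ring
  rwa [e1, e1] at h

theorem even_of_not_mem {K L : Type} [Field K] [Field L] [Algebra K L] [FiniteDimensional K L]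
    (E : IntermediateField K L) (y : L) (hy : y ∉ E) (hy2 : y ^ 2 ∈ E) :
    Even (Module.finrank E L) := by
  have hint : IsIntegral E y := Algebra.IsIntegral.isIntegral y
  have hdvd : minpoly E y ∣ X ^ 2 - C (⟨y ^ 2, hy2⟩ : E) := by
    apply minpoly.dvd
    rw [map_sub, map_pow, aeval_X, aeval_C]
    exact sub_self _
  have hne : (X ^ 2 - C (⟨y ^ 2, hy2⟩ : E)) ≠ 0 := X_pow_sub_C_ne_zero (by norm_num) _
  have hle : (minpoly E y).natDegree ≤ 2 := by
    have h := natDegree_le_of_dvd hdvd hne
    rwa [natDegree_X_pow_sub_C] at h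
  have hpos : 0 < (minpoly E y).natDegree := minpoly.natDegree_pos hint
  have h1 : (minpoly E y).natDegree ≠ 1 := by
    intro h
    rw [minpoly.natDegree_eq_one_iff] at h
    obtain ⟨z, hz⟩ := h
    apply hy
    rw [← hz]
    exact z.2
  have h2 : (minpoly E y).natDegree = 2 := by omega
  have h3 : (minpoly E y).natDegree ∣ Module.finrank E L := minpoly.degree_dvd hint
  rw [h2] at h3
  exact (even_iff_two_dvd).2 h3

theorem nrm (hmum : Pool.Agent.TH841.ZC.MUM) : Pool.Agent.TH841.ZC.NRM := by
  intro K L _ _ _ _ _ A B θ y hA hB hAB hy hy2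
  have hint : IsIntegral K θ := Algebra.IsIntegral.isIntegral θ
  have hθ0 : θ ≠ 0 := by
    rintro rfl
    rw [zero_mul, zero_mul] at hy2
    exact hy (pow_eq_zero_iff two_ne_zero |>.1 hy2)
  have hθA : θ - algebraMap K L A ≠ 0 := by
    intro h
    rw [h, mul_zero, zero_mul] at hy2
    exact hy (pow_eq_zero_iff two_ne_zero |>.1 hy2)
  have hθB : θ - algebraMap K L B ≠ 0 := by
    intro h
    rw [h, mul_zero] at hy2
    exact hy (pow_eq_zero_iff two_ne_zero |>.1 hy2)
  have hev : ∀ t : K, θ - algebraMap K L t ≠ 0 → (minpoly K θ).eval t ≠ 0 := by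
    intro t ht h
    have h1 := norm_sub θ t
    rw [h, mul_zero, zero_pow (Module.finrank_pos).ne'] at h1
    exact ht (Algebra.norm_eq_zero_iff.1 h1)
  have hu0 : (minpoly K θ).eval 0 ≠ 0 := hev 0 (by rwa [map_zero, sub_zero])
  have huA : (minpoly K θ).eval A ≠ 0 := hev A hθA
  have huB : (minpoly K θ).eval B ≠ 0 := hev B hθB
  have hn0 : Algebra.norm K θ = ((-1) ^ (minpoly K θ).natDegree * (minpoly K θ).eval 0) ^
        Module.finrank (IntermediateField.adjoin K {θ}) L := by
    have h := norm_sub θ (0 : K)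
    rwa [map_zero, sub_zero] at h
  have hnA := norm_sub θ A
  rw [hn0, hnA]
  have hs : ((-1 : K)) ^ (minpoly K θ).natDegree ≠ 0 := pow_ne_zero _ (neg_ne_zero.2 one_ne_zero)
  by_cases hye : y ∈ IntermediateField.adjoin K {θ}
  · rcases Nat.even_or_odd (Module.finrank (IntermediateField.adjoin K {θ}) L) with hd | hd
    · exact cls_even (mul_ne_zero hs hu0) (mul_ne_zero hs huA) hd
    · refine cls_odd (mul_ne_zero hs hu0) (mul_ne_zero hs huA) hd ?_
      have hye' : y ∈ (IntermediateField.adjoin K {θ}).toSubalgebra := hye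
      rw [IntermediateField.adjoin_simple_toSubalgebra_of_isAlgebraic hint.isAlgebraic,
        Algebra.adjoin_singleton_eq_range_aeval] at hye'
      obtain ⟨v, hv⟩ := hye'
      refine hmum K A B (minpoly K θ) v hA hB hAB (minpoly.monic hint) ?_ hu0 huA huB
      apply minpoly.dvd
      have hv' : aeval θ v = y := hv
      rw [map_sub, map_mul, map_mul, map_sub, map_sub, map_pow, hv', aeval_X, aeval_C, aeval_C,
        hy2, sub_self]
  · refine cls_even (mul_ne_zero hs hu0) (mul_ne_zero hs huA) (even_of_not_mem _ y hye ?_)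
    rw [hy2]
    have h1 : θ ∈ IntermediateField.adjoin K {θ} := IntermediateField.mem_adjoin_simple_self K θ
    exact mul_mem (mul_mem h1 (sub_mem h1 (IntermediateField.algebraMap_mem _ A)))
      (sub_mem h1 (IntermediateField.algebraMap_mem _ B))

end Pool.Agent.TH841.ZC.NRMf
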