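import Mathlib
import Pool.Agent.TH841.ZC.Stm

/-!
# ZC-MUM: the class of a divisor in Mumford representation is the class of a point

Linear algebra gives a function `p + q Y`, not zero, of small degree on `Y² = F` which vanishes on
the divisor; its norm `p² - q² F` is `u w` with `deg w ≤ 1`.
-/

set_option autoImplicit false

namespace Pool.Agent.TH841.ZC.MUMf2

open Polynomial Pool.Agent.TH841.ZC

lemma cls_of {K : Type} [Field K] {A B a b α β s t : K} (ha : a = α * s ^ 2)
    (hb : b = β * t ^ 2) (ha0 : a ≠ 0) (hb0 : b ≠ 0) (h : Cls K A B α β) : Cls K A B a b := by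
  have hs : s ≠ 0 := by
    rintro rfl
    apply ha0
    rw [ha]
    ring
  have ht : t ≠ 0 := by
    rintro rfl
    apply hb0
    rw [hb]
    ring
  obtain ⟨M, e, x, y, h0, h1, h2⟩ := h
  refine ⟨M / s, e, x / t, y / (s * t), ?_, ?_, ?_⟩
  · rcases h0 with h0 | h0
    · exact Or.inl (div_ne_zero h0 hs)
    · exact Or.inr h0
  · rw [ha, hb]
    field_simp
    linear_combination h1
  · rw [ha, hb]
    field_simp
    linear_combination h2

lemma exists_pq {K : Type} [Field K] (u v : K[X]) (hu : u.Monic) :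
    ∃ p q : K[X], (p ≠ 0 ∨ q ≠ 0) ∧ u ∣ p + q * v ∧
      p.degree < ((u.natDegree + 1) / 2 + 1 : ℕ) ∧ q.degree < (u.natDegree / 2 : ℕ) := by
  classical
  set n := u.natDegree with hn
  let V := degreeLT K ((n + 1) / 2 + 1) × degreeLT K (n / 2)
  let f0 : V →ₗ[K] K[X] :=
    ((degreeLT K ((n + 1) / 2 + 1)).subtype.comp (LinearMap.fst K _ _)) +
      ((LinearMap.mulRight K v).comp ((degreeLT K (n / 2)).subtype.comp (LinearMap.snd K _ _)))
  let f1 : V →ₗ[K] K[X] := (modByMonicHom u).comp f0
  have hf1 : ∀ x, f1 x ∈ degreeLT K n := by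
    intro x
    rw [mem_degreeLT]
    change (modByMonicHom u (f0 x)).degree < _
    rw [modByMonicHom_apply]
    refine (degree_modByMonic_lt _ hu).trans_le ?_
    rw [degree_eq_natDegree hu.ne_zero]
  let f : V →ₗ[K] degreeLT K n := f1.codRestrict _ hf1
  have hfin : ∀ k, Module.finrank K (degreeLT K k) = k := by
    intro k
    rw [LinearEquiv.finrank_eq (degreeLTEquiv K k), Module.finrank_fin_fun]
  have : ∀ k, FiniteDimensional K (degreeLT K k) := fun k =>
    (degreeLTEquiv K k).symm.finiteDimensional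
  have hlt : Module.finrank K (degreeLT K n) < Module.finrank K V := by
    rw [Module.finrank_prod, hfin, hfin, hfin]
    omega
  have hker := LinearMap.ker_ne_bot_of_finrank_lt (f := f) hlt
  obtain ⟨x, hx, hx0⟩ := (Submodule.ne_bot_iff _).1 hker
  refine ⟨x.1, x.2, ?_, ?_, ?_, ?_⟩
  · by_contra hcon
    rw [not_or, not_not, not_not] at hcon
    apply hx0
    apply Prod.ext
    · exact Subtype.ext hcon.1
    · exact Subtype.ext hcon.2
  · rw [LinearMap.mem_ker] at hx
    have h1 : f1 x = 0 := congrArg Subtype.val hx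
    change modByMonicHom u (f0 x) = 0 at h1
    rw [modByMonicHom_apply, modByMonic_eq_zero_iff_dvd hu] at h1
    exact h1
  · exact mem_degreeLT.1 x.1.2
  · exact mem_degreeLT.1 x.2.2

/-- the norm of `p + q Y` is not zero and its leading coefficient is a square up to the sign -/
lemma norm_lead {K : Type} [Field K] (F p q : K[X]) (hF : F.natDegree = 3) (hF1 : F.Monic)
    (n : ℕ) (hpq : p ≠ 0 ∨ q ≠ 0) (hp : p.degree < ((n + 1) / 2 + 1 : ℕ))
    (hq : q.degree < (n / 2 : ℕ)) :
    p ^ 2 - q ^ 2 * F ≠ 0 ∧ (p ^ 2 - q ^ 2 * F).natDegree ≤ n + 1 ∧ ∃ k : K, k ≠ 0 ∧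
      (p ^ 2 - q ^ 2 * F).leadingCoeff = (-1) ^ (p ^ 2 - q ^ 2 * F).natDegree * k ^ 2 := by
  have hF0 : F ≠ 0 := hF1.ne_zero
  have hp2 : (p ^ 2).natDegree = 2 * p.natDegree := natDegree_pow p 2
  have hpn : p ≠ 0 → p.natDegree < (n + 1) / 2 + 1 := by
    intro h
    rw [degree_eq_natDegree h] at hp
    exact_mod_cast hp
  have hqn : q ≠ 0 → q.natDegree < n / 2 := by
    intro h
    rw [degree_eq_natDegree h] at hq
    exact_mod_cast hq
  have hqF : q ≠ 0 → (q ^ 2 * F).natDegree = 2 * q.natDegree + 3 := by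
    intro h
    rw [natDegree_mul (pow_ne_zero 2 h) hF0, natDegree_pow, hF]
  have hl : (q ^ 2 * F).leadingCoeff = q.leadingCoeff ^ 2 := by
    rw [leadingCoeff_mul, leadingCoeff_pow, hF1.leadingCoeff, mul_one]
  by_cases hq0 : q = 0
  · have hp0 : p ≠ 0 := by
      rcases hpq with h | h
      · exact h
      · exact absurd hq0 h
    rw [hq0]
    have e : p ^ 2 - 0 ^ 2 * F = p ^ 2 := by ring
    rw [e]
    refine ⟨pow_ne_zero 2 hp0, ?_, p.leadingCoeff, leadingCoeff_ne_zero.2 hp0, ?_⟩
    · rw [hp2]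
      have := hpn hp0
      omega
    · rw [leadingCoeff_pow, hp2, pow_mul]
      norm_num
  by_cases hp0 : p = 0
  · rw [hp0]
    have e : (0 : K[X]) ^ 2 - q ^ 2 * F = -(q ^ 2 * F) := by ring
    rw [e]
    refine ⟨neg_ne_zero.2 (mul_ne_zero (pow_ne_zero 2 hq0) hF0), ?_, q.leadingCoeff,
      leadingCoeff_ne_zero.2 hq0, ?_⟩
    · rw [natDegree_neg, hqF hq0]
      have := hqn hq0
      omega
    · rw [leadingCoeff_neg, natDegree_neg, hqF hq0, hl, pow_succ, pow_add, pow_mul]
      norm_num
  have h1 := hpn hp0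
  have h2 := hqn hq0
  have h3 := hqF hq0
  rcases Nat.lt_or_ge (q ^ 2 * F).natDegree (p ^ 2).natDegree with h | h
  · have hd : (p ^ 2 - q ^ 2 * F).natDegree = 2 * p.natDegree := by
      rw [natDegree_sub_eq_left_of_natDegree_lt h, hp2]
    have hdeg : (q ^ 2 * F).degree < (p ^ 2).degree := degree_lt_degree h
    refine ⟨?_, ?_, p.leadingCoeff, leadingCoeff_ne_zero.2 hp0, ?_⟩
    · intro h0
      rw [h0, natDegree_zero] at hd
      rw [hp2] at h
      omega
    · rw [hd]
      omega
    · rw [leadingCoeff_sub_of_degree_lt hdeg, leadingCoeff_pow, hd, pow_mul]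
      norm_num
  · have hlt : (p ^ 2).natDegree < (q ^ 2 * F).natDegree := by
      rw [hp2, h3] at h ⊢
      omega
    have hd : (p ^ 2 - q ^ 2 * F).natDegree = 2 * q.natDegree + 3 := by
      rw [natDegree_sub_eq_right_of_natDegree_lt hlt, h3]
    have hdeg : (p ^ 2).degree < (q ^ 2 * F).degree := degree_lt_degree hlt
    refine ⟨?_, ?_, q.leadingCoeff, leadingCoeff_ne_zero.2 hq0, ?_⟩
    · intro h0
      rw [h0, natDegree_zero] at hd
      omega
    · rw [hd]
      omega
    · rw [leadingCoeff_sub_of_degree_lt' hdeg, hl, hd, pow_succ, pow_add, pow_mul]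
      norm_num

/-- ZC-MUM -/
theorem mum : MUM := by
  intro K _ _ A B u v hA hB hAB hu huv h0 hA' hB'
  set n := u.natDegree with hn
  set F : K[X] := X * (X - C A) * (X - C B) with hF
  have hF3 : F.natDegree = 3 := by
    rw [hF]
    compute_degree!
  have hFm : F.Monic := by
    rw [hF]
    exact (monic_X.mul (monic_X_sub_C A)).mul (monic_X_sub_C B)
  obtain ⟨p, q, hpq, hdvd, hp, hq⟩ := exists_pq u v hu
  obtain ⟨hN0, hNd, k, hk, hlead⟩ := norm_lead F p q hF3 hFm n hpq hp hq
  have hNu : u ∣ p ^ 2 - q ^ 2 * F := by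
    have e : p ^ 2 - q ^ 2 * F = (p + q * v) * (p - q * v) - q ^ 2 * (F - v ^ 2) := by ring
    rw [e]
    exact dvd_sub (dvd_mul_of_dvd_left hdvd _) (dvd_mul_of_dvd_right huv _)
  obtain ⟨w, hw⟩ := hNu
  have hw0 : w ≠ 0 := by
    rintro rfl
    apply hN0
    rw [hw, mul_zero]
  have hdeg : (p ^ 2 - q ^ 2 * F).natDegree = n + w.natDegree := by
    rw [hw, natDegree_mul hu.ne_zero hw0]
  have hc : w.leadingCoeff = (-1) ^ (n + w.natDegree) * k ^ 2 := by
    rw [← hdeg, ← hlead, hw, leadingCoeff_mul, hu.leadingCoeff, one_mul]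
  have hw1 : w.natDegree ≤ 1 := by omega
  set ε : K := (-1) ^ n with hε
  have hε2 : ε * ε = 1 := by
    rw [hε, ← mul_pow]
    norm_num
  have hε0 : ε ≠ 0 := pow_ne_zero n (by norm_num)
  have ev : ∀ x : K, p.eval x ^ 2 - q.eval x ^ 2 * (x * (x - A) * (x - B)) =
      u.eval x * w.eval x := by
    intro x
    have := congrArg (eval x) hw
    rw [hF] at this
    simpa using this
  have hα0 : ε * u.eval 0 ≠ 0 := mul_ne_zero hε0 h0
  have hβ0 : ε * u.eval A ≠ 0 := mul_ne_zero hε0 hA'
  have hAB' : A - B ≠ 0 := sub_ne_zero.2 hAB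
  rcases Nat.eq_zero_or_pos w.natDegree with hwd | hwd
  · -- the divisor is principal
    have hwC : w = C (ε * k ^ 2) := by
      rw [eq_C_of_natDegree_eq_zero hwd]
      congr 1
      rw [hwd, add_zero] at hc
      rw [← hc, leadingCoeff, hwd]
    have e0 := ev 0
    have eA := ev A
    rw [hwC, eval_C] at e0 eA
    refine cls_of (s := p.eval 0 / k) (t := p.eval A / k) (α := 1) (β := 1) ?_ ?_ hα0 hβ0
      ⟨1, 0, 1, 1, Or.inl one_ne_zero, by ring, by ring⟩
    · field_simp
      linear_combination (-1 : K) * e0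
    · field_simp
      linear_combination (-1 : K) * eA
  · -- the divisor is equivalent to a point
    have hwd1 : w.natDegree = 1 := by omega
    have hc1 : w.leadingCoeff = -ε * k ^ 2 := by
      rw [hc, hwd1, pow_succ]
      ring
    obtain ⟨θ, hθ⟩ : ∃ θ : K, w = C (-ε * k ^ 2) * (X - C θ) := by
      have h1 : w = C (w.coeff 1) * X + C (w.coeff 0) := eq_X_add_C_of_natDegree_le_one hw1
      have h2 : w.coeff 1 = -ε * k ^ 2 := by
        rw [← hc1, leadingCoeff, hwd1]
      have h3 : -ε * k ^ 2 ≠ 0 := mul_ne_zero (neg_ne_zero.2 hε0) (pow_ne_zero 2 hk)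
      refine ⟨-(w.coeff 0) / (-ε * k ^ 2), ?_⟩
      rw [mul_sub, ← C_mul, mul_div_cancel₀ _ h3, C_neg, sub_neg_eq_add]
      rw [h2] at h1
      exact h1
    have ev' : ∀ x : K, p.eval x ^ 2 - q.eval x ^ 2 * (x * (x - A) * (x - B)) =
        u.eval x * (-ε * k ^ 2 * (x - θ)) := by
      intro x
      rw [ev x, hθ]
      simp
    have e0 := ev' 0
    have eA := ev' A
    have eB := ev' B
    by_cases t0 : θ = 0
    · -- the point `T_0`
      subst t0
      have hp0 : p.eval 0 = 0 := by
        have : p.eval 0 ^ 2 = 0 := by linear_combination e0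
        exact pow_eq_zero_iff (two_ne_zero) |>.1 this
      obtain ⟨p1, hp1⟩ : X - C (0 : K) ∣ p := dvd_iff_isRoot.2 hp0
      rw [C_0, sub_zero] at hp1
      have key : X * p1 ^ 2 - q ^ 2 * ((X - C A) * (X - C B)) = C (-ε * k ^ 2) * u := by
        apply mul_left_cancel₀ (X_ne_zero (R := K))
        rw [hθ, hp1, hF, C_0, sub_zero] at hw
        linear_combination hw
      have k0 := congrArg (eval 0) key
      have kA := congrArg (eval A) key
      simp only [eval_sub, eval_mul, eval_pow, eval_X, eval_C] at k0 kA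
      refine cls_of (s := q.eval 0 / k) (t := p1.eval A / k) (α := A * B) (β := -A) ?_ ?_ hα0 hβ0
        ⟨0, 1, 1, 1 / A, Or.inr one_ne_zero, by ring, by field_simp; ring⟩
      · field_simp
        linear_combination k0
      · field_simp
        linear_combination kA
    by_cases tA : θ = A
    · -- the point `T_A`
      subst tA
      have hp0 : p.eval θ = 0 := by
        have : p.eval θ ^ 2 = 0 := by linear_combination eA
        exact pow_eq_zero_iff (two_ne_zero) |>.1 this
      obtain ⟨p1, hp1⟩ : X - C θ ∣ p := dvd_iff_isRoot.2 hp0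
      have key : (X - C θ) * p1 ^ 2 - q ^ 2 * (X * (X - C B)) = C (-ε * k ^ 2) * u := by
        apply mul_left_cancel₀ (X_sub_C_ne_zero θ)
        rw [hθ, hp1, hF] at hw
        linear_combination hw
      have k0 := congrArg (eval 0) key
      have kA := congrArg (eval θ) key
      simp only [eval_sub, eval_mul, eval_pow, eval_X, eval_C] at k0 kA
      refine cls_of (s := p1.eval 0 / k) (t := q.eval θ / k) (α := θ) (β := θ * (θ - B)) ?_ ?_
        hα0 hβ0 ⟨1, 1, 0, 1 / θ, Or.inl one_ne_zero, by ring, by field_simp⟩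
      · field_simp
        linear_combination k0
      · field_simp
        linear_combination kA
    by_cases tB : θ = B
    · -- the point `T_B`
      subst tB
      have hp0 : p.eval θ = 0 := by
        have : p.eval θ ^ 2 = 0 := by linear_combination eB
        exact pow_eq_zero_iff (two_ne_zero) |>.1 this
      obtain ⟨p1, hp1⟩ : X - C θ ∣ p := dvd_iff_isRoot.2 hp0
      have key : (X - C θ) * p1 ^ 2 - q ^ 2 * (X * (X - C A)) = C (-ε * k ^ 2) * u := by
        apply mul_left_cancel₀ (X_sub_C_ne_zero θ)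
        rw [hθ, hp1, hF] at hw
        linear_combination hw
      have k0 := congrArg (eval 0) key
      have kA := congrArg (eval A) key
      simp only [eval_sub, eval_mul, eval_pow, eval_X, eval_C] at k0 kA
      refine cls_of (s := p1.eval 0 / k) (t := p1.eval A / k) (α := θ) (β := θ - A) ?_ ?_
        hα0 hβ0 ⟨1, 1, 1, 0, Or.inl one_ne_zero, by ring, by ring⟩
      · field_simp
        linear_combination k0
      · field_simp
        linear_combination kA
    -- a point of odd order or infinite order or ...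
    have tA' : θ - A ≠ 0 := sub_ne_zero.2 tA
    have tB' : θ - B ≠ 0 := sub_ne_zero.2 tB
    obtain ⟨y0, hy0⟩ : ∃ y0 : K, θ * (θ - A) * (θ - B) = y0 ^ 2 := by
      have eθ := ev' θ
      rw [sub_self, mul_zero, mul_zero] at eθ
      by_cases hqθ : q.eval θ = 0
      · have hpθ : p.eval θ = 0 := by
          have : p.eval θ ^ 2 = 0 := by
            rw [hqθ] at eθ
            linear_combination eθ
          exact pow_eq_zero_iff (two_ne_zero) |>.1 this
        obtain ⟨p1, hp1⟩ : X - C θ ∣ p := dvd_iff_isRoot.2 hpθ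
        obtain ⟨q1, hq1⟩ : X - C θ ∣ q := dvd_iff_isRoot.2 hqθ
        have key : (X - C θ) * (p1 ^ 2 - q1 ^ 2 * F) = C (-ε * k ^ 2) * u := by
          apply mul_left_cancel₀ (X_sub_C_ne_zero θ)
          rw [hθ, hp1, hq1] at hw
          linear_combination hw
        have kθ := congrArg (eval θ) key
        simp only [eval_mul, eval_sub, eval_X, eval_C, sub_self, zero_mul] at kθ
        have huθ : u.eval θ = 0 := by
          rcases mul_eq_zero.1 kθ.symm with h | h
          · exact absurd h (mul_ne_zero (neg_ne_zero.2 hε0) (pow_ne_zero 2 hk))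
          · exact h
        obtain ⟨g, hg⟩ := huv
        have hgθ := congrArg (eval θ) hg
        rw [eval_mul, huθ, zero_mul, hF] at hgθ
        simp only [eval_mul, eval_sub, eval_X, eval_C, eval_pow] at hgθ
        exact ⟨v.eval θ, by linear_combination hgθ⟩
      · refine ⟨p.eval θ / q.eval θ, ?_⟩
        field_simp
        linear_combination (-1 : K) * eθ
    refine cls_of (s := p.eval 0 / (k * θ)) (t := p.eval A / (k * (θ - A))) (α := θ)
      (β := θ - A) ?_ ?_ hα0 hβ0
      ⟨1, 1, 1, y0 / (θ * (θ - A)), Or.inl one_ne_zero, by ring, ?_⟩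
    · field_simp
      linear_combination (-1 : K) * e0
    · field_simp
      linear_combination (-1 : K) * eA
    · field_simp
      linear_combination hy0

end Pool.Agent.TH841.ZC.MUMf2
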